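import Mathlib

set_option autoImplicit false

open Equiv
open FreeGroup hiding map_mul map_inv map_one

namespace Pool.Agent.H31.FA

variable {X : Type*}

theorem red_suffix {L M : List (Fin 2 × Bool)} (h : IsReduced L) (hM : M <:+ L) : IsReduced M := by
  obtain ⟨t, rfl⟩ := hM
  exact List.IsChain.right_of_append h

/-- The permutation given by a word in the two generators. -/
def wd (a : Fin 2 → Perm X) (L : List (Fin 2 × Bool)) : Perm X := FreeGroup.lift a (FreeGroup.mk L)

theorem wd_nil (a : Fin 2 → Perm X) : wd a [] = 1 := by
  simp [wd]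

theorem wd_cons (a : Fin 2 → Perm X) (l : Fin 2 × Bool) (L : List (Fin 2 × Bool)) :
    wd a (l :: L) = (cond l.2 (a l.1) (a l.1)⁻¹) * wd a L := by
  simp [wd, lift_mk]

theorem wd_append (a : Fin 2 → Perm X) (L M : List (Fin 2 × Bool)) :
    wd a (L ++ M) = wd a L * wd a M := by
  simp [wd, ← mul_mk]

theorem toWord_mk_mul {l : Fin 2 × Bool} {v : FreeGroup (Fin 2)}
    (h : v.toWord.head? ≠ some (l.1, !l.2)) : (mk [l] * v).toWord = l :: v.toWord := by
  rw [toWord_mul, toWord_mk, reduce_singleton]
  have h1 : IsReduced (l :: v.toWord) := by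
    have h2 : IsReduced v.toWord := isReduced_toWord
    cases hv : v.toWord with
    | nil => exact IsReduced.singleton
    | cons c t =>
      rw [hv] at h h2
      rw [isReduced_cons_cons]
      refine ⟨fun h3 => ?_, h2⟩
      by_contra h4
      apply h
      simp only [List.head?_cons, Option.some.injEq]
      apply Prod.ext
      · exact h3.symm
      · simp only
        cases hl : l.2 <;> cases hc : c.2 <;> simp_all
  exact h1.reduce_eq

theorem head_mk_mul {l : Fin 2 × Bool} {v : FreeGroup (Fin 2)}
    (h : v.toWord.head? ≠ some (l.1, !l.2)) : (mk [l] * v).toWord.head? = some l := by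
  rw [toWord_mk_mul h]; rfl

theorem of_eq_mk (i : Fin 2) : (of i : FreeGroup (Fin 2)) = mk [(i, true)] := rfl

theorem of_inv_eq_mk (i : Fin 2) : (of i : FreeGroup (Fin 2))⁻¹ = mk [(i, false)] := by
  rw [of_eq_mk, inv_mk]; rfl

/-- Leading letter of `s ^ k * v` when `v` has no leading `i`-letter. -/
theorem head_zpow {i : Fin 2} {v : FreeGroup (Fin 2)}
    (hv : ∀ δ, v.toWord.head? ≠ some (i, δ)) (k : ℤ) (hk : k ≠ 0) :
    ∃ δ, ((of i) ^ k * v).toWord.head? = some (i, δ) := by
  have hpos : ∀ n : ℕ, ((of i) ^ (n+1) * v).toWord.head? = some (i, true) := by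
    intro n
    induction n with
    | zero =>
      rw [zero_add, pow_one, of_eq_mk]
      exact head_mk_mul (hv _)
    | succ n ih =>
      rw [pow_succ', mul_assoc, of_eq_mk]
      apply head_mk_mul
      rw [← of_eq_mk, ih]
      simp
  have hneg : ∀ n : ℕ, (((of i)⁻¹) ^ (n+1) * v).toWord.head? = some (i, false) := by
    intro n
    induction n with
    | zero =>
      rw [zero_add, pow_one, of_inv_eq_mk]
      exact head_mk_mul (hv _)
    | succ n ih =>
      rw [pow_succ', mul_assoc, of_inv_eq_mk]
      apply head_mk_mul
      rw [← of_inv_eq_mk, ih]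
      simp
  rcases lt_or_gt_of_ne hk with h | h
  · refine ⟨false, ?_⟩
    obtain ⟨n, hn⟩ : ∃ n : ℕ, k = -((n:ℤ)+1) := ⟨(-k-1).toNat, by omega⟩
    rw [hn, zpow_neg, ← inv_zpow]
    have := hneg n
    exact_mod_cast this
  · refine ⟨true, ?_⟩
    obtain ⟨n, hn⟩ : ∃ n : ℕ, k = (n:ℤ)+1 := ⟨(k-1).toNat, by omega⟩
    rw [hn]
    have := hpos n
    exact_mod_cast this

/-- Split off the maximal leading block of `i`-letters of a reduced word. -/
theorem block (i : Fin 2) (M : List (Fin 2 × Bool)) (hM : IsReduced M) :
    ∃ (k : ℤ) (M0 : List (Fin 2 × Bool)), M0 <:+ M ∧ mk M = (of i) ^ k * mk M0 ∧ (k = 0 → M = M0) ∧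
      (∀ δ, M0.head? ≠ some (i, δ)) ∧ (0 < k → M.head? = some (i, true)) ∧
      (k < 0 → M.head? = some (i, false)) := by
  induction M with
  | nil => exact ⟨0, [], List.suffix_refl _, by simp, fun _ => rfl, by simp, by simp, by simp⟩
  | cons l t ih =>
    have ht : IsReduced t := red_suffix hM (List.suffix_cons l t)
    obtain ⟨k, M0, h1, h2, h3, h4, h5, h6⟩ := ih ht
    by_cases hl : l.1 = i
    · obtain ⟨l1, l2⟩ := l
      simp only at hl
      subst hl
      cases l2 with
      | true =>
        have hk : 0 ≤ k := by
          by_contra hk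
          have h7 := h6 (not_le.mp hk)
          cases t with
          | nil => simp at h7
          | cons c t =>
            simp only [List.head?_cons, Option.some.injEq] at h7
            subst h7
            rw [isReduced_cons_cons] at hM
            simpa using hM.1
        refine ⟨k+1, M0, h1.trans (List.suffix_cons _ _), ?_, fun h => by omega, h4,
          fun _ => rfl, fun h => by omega⟩
        rw [← List.singleton_append, ← mul_mk, h2, ← of_eq_mk, ← mul_assoc, ← zpow_one_add,
          add_comm]
      | false =>
        have hk : k ≤ 0 := by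
          by_contra hk
          have h7 := h5 (not_le.mp hk)
          cases t with
          | nil => simp at h7
          | cons c t =>
            simp only [List.head?_cons, Option.some.injEq] at h7
            subst h7
            rw [isReduced_cons_cons] at hM
            simpa using hM.1
        refine ⟨k-1, M0, h1.trans (List.suffix_cons _ _), ?_, fun h => by omega, h4,
          fun h => by omega, fun _ => rfl⟩
        rw [← List.singleton_append, ← mul_mk, h2, ← of_inv_eq_mk, ← mul_assoc, ← zpow_neg_one,
          ← zpow_add]
        congr 2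
        ring
    · refine ⟨0, l :: t, List.suffix_refl _, by simp, fun _ => rfl, ?_, by simp, by simp⟩
      intro δ h
      simp only [List.head?_cons, Option.some.injEq] at h
      exact hl (by rw [h])

theorem fin2_ne {i j c : Fin 2} (hij : i ≠ j) (h : c ≠ i) : c = j := by
  omega

/-- Key combinatorial claim: the reduced form of the position after a `j`-letter. -/
theorem claim {i j : Fin 2} (hij : i ≠ j) {a b : Fin 2 → Perm X} {psi : Perm X}
    (hψ : ∀ y, ∃ n : ℤ, psi y = (a i ^ n) y) (hbi : b i = a i) (hbj : b j = a j * psi)
    (x : X) (hx : ∀ g : FreeGroup (Fin 2), g ≠ 1 → FreeGroup.lift a g x ≠ x) :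
    ∀ (N : ℕ) (L : List (Fin 2 × Bool)), L.length ≤ N → IsReduced L →
      ∀ ε, L.head? = some (j, ε) →
      ∃ v : FreeGroup (Fin 2), v.toWord.head? = some (j, ε) ∧
        (ε = true → wd b L x = FreeGroup.lift a v x) ∧
        (ε = false → psi (wd b L x) = FreeGroup.lift a v x) := by
  -- injectivity of the orbit map
  have hinj : ∀ g h : FreeGroup (Fin 2), FreeGroup.lift a g x = FreeGroup.lift a h x → g = h := by
    intro g h hgh
    by_contra hne
    have h1 : g⁻¹ * h ≠ 1 := fun h2 => hne (by rw [← mul_one g, ← h2]; group)
    apply hx _ h1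
    rw [map_mul, map_inv, Perm.mul_apply, ← hgh, ← Perm.mul_apply, inv_mul_cancel, Perm.one_apply]
  intro N
  induction N with
  | zero =>
    intro L hL _ ε hε
    have : L = [] := List.length_eq_zero_iff.mp (by omega)
    subst this
    simp at hε
  | succ N ih =>
    intro L hL hred ε hε
    obtain ⟨l, t, rfl⟩ : ∃ l t, L = l :: t := by
      cases L with
      | nil => simp at hε
      | cons l t => exact ⟨l, t, rfl⟩
    simp only [List.head?_cons, Option.some.injEq] at hε
    subst hε
    have htred : IsReduced t := red_suffix hred (List.suffix_cons _ t)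
    obtain ⟨k, M0, hsuf, hmk, hk0, hM0, -, -⟩ := block i t htred
    have hM0red : IsReduced M0 := red_suffix htred hsuf
    have hM0len : M0.length ≤ N := by
      have := hsuf.length_le
      simp at hL
      omega
    set y0 := wd b M0 x with hy0
    have hy' : wd b t x = (a i ^ k) y0 := by
      rw [wd, hmk, map_mul, map_zpow, lift_apply_of, hbi]; rfl
    -- general finishing steps
    have fin_true : ∀ w : FreeGroup (Fin 2), psi (wd b t x) = FreeGroup.lift a w x →
        w.toWord.head? ≠ some (j, false) →
        ∃ v : FreeGroup (Fin 2), v.toWord.head? = some (j, true) ∧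
        (true = true → wd b ((j, true) :: t) x = FreeGroup.lift a v x) ∧
        (true = false → psi (wd b ((j, true) :: t) x) = FreeGroup.lift a v x) := by
      intro w hw hhead
      refine ⟨mk [(j, true)] * w, head_mk_mul (by simpa using hhead), fun _ => ?_, by simp⟩
      rw [wd_cons, Perm.mul_apply, map_mul, Perm.mul_apply, ← hw]
      simp [hbj]
    have fin_false : ∀ w : FreeGroup (Fin 2), wd b t x = FreeGroup.lift a w x →
        w.toWord.head? ≠ some (j, true) →
        ∃ v : FreeGroup (Fin 2), v.toWord.head? = some (j, false) ∧
        (false = true → wd b ((j, false) :: t) x = FreeGroup.lift a v x) ∧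
        (false = false → psi (wd b ((j, false) :: t) x) = FreeGroup.lift a v x) := by
      intro w hw hhead
      refine ⟨mk [(j, false)] * w, head_mk_mul (by simpa using hhead), by simp, fun _ => ?_⟩
      rw [wd_cons, Perm.mul_apply, map_mul, Perm.mul_apply, ← hw]
      simp [hbj]
    -- no leading i letter for 1
    have h1head : ∀ δ, (1 : FreeGroup (Fin 2)).toWord.head? ≠ some (i, δ) := by simp
    cases hM0c : M0 with
    | nil =>
      have hy0' : y0 = x := by rw [hy0, hM0c, wd_nil]; rfl
      rw [hy0'] at hy'
      have hheads : ∀ (e : ℤ) (δ : Bool), ((of i) ^ e : FreeGroup (Fin 2)).toWord.head? ≠ some (j, δ) := by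
        intro e δ
        by_cases he : e = 0
        · subst he; simp
        · obtain ⟨δ', h⟩ := head_zpow h1head e he
          rw [mul_one] at h
          rw [h]
          intro h2
          simp only [Option.some.injEq, Prod.mk.injEq] at h2
          exact hij h2.1
      cases ε with
      | true =>
        obtain ⟨n, hn⟩ := hψ (wd b t x)
        apply fin_true ((of i) ^ (n + k)) _ (hheads _ _)
        rw [hn, hy', map_zpow, lift_apply_of, zpow_add, Perm.mul_apply]
      | false =>
        apply fin_false ((of i) ^ k) _ (hheads _ _)
        rw [hy', map_zpow, lift_apply_of]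
    | cons c t' =>
      have hcj : c.1 = j := by
        apply fin2_ne hij
        intro hc
        apply hM0 c.2
        rw [hM0c]
        simp only [List.head?_cons, Option.some.injEq]
        exact Prod.ext hc rfl
      obtain ⟨c1, ε'⟩ := c
      simp only at hcj
      subst hcj
      obtain ⟨v0, hv0, hv0t, hv0f⟩ := ih M0 hM0len hM0red ε' (by rw [hM0c]; rfl)
      have hv0i : ∀ δ, v0.toWord.head? ≠ some (i, δ) := by
        intro δ h
        rw [hv0] at h
        simp only [Option.some.injEq, Prod.mk.injEq] at h
        exact hij h.1.symm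
      have hheads : ∀ (e : ℤ), e ≠ 0 → ∀ (δ : Bool), ((of i) ^ e * v0).toWord.head? ≠ some (c1, δ) := by
        intro e he δ
        obtain ⟨δ', h⟩ := head_zpow hv0i e he
        rw [h]
        intro h2
        simp only [Option.some.injEq, Prod.mk.injEq] at h2
        exact hij h2.1
      cases ε' with
      | true =>
        have hy0v : y0 = FreeGroup.lift a v0 x := hv0t rfl
        cases ε with
        | true =>
          obtain ⟨n, hn⟩ := hψ (wd b t x)
          apply fin_true ((of i) ^ (n + k) * v0)
          · rw [hn, hy', hy0v, map_mul, map_zpow, lift_apply_of, zpow_add, Perm.mul_apply,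
              Perm.mul_apply]
          · by_cases he : n + k = 0
            · rw [he, zpow_zero, one_mul, hv0]; simp
            · exact hheads _ he _
        | false =>
          have hk : k ≠ 0 := by
            intro hk
            have := hk0 hk
            rw [this, hM0c, isReduced_cons_cons] at hred
            simpa using hred.1
          apply fin_false ((of i) ^ k * v0)
          · rw [hy', hy0v, map_mul, map_zpow, lift_apply_of, Perm.mul_apply]
          · exact hheads _ hk _
      | false =>
        have hy0v : psi y0 = FreeGroup.lift a v0 x := hv0f rfl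
        obtain ⟨n0, hn0⟩ := hψ y0
        have hy0w : y0 = FreeGroup.lift a ((of i) ^ (-n0) * v0) x := by
          rw [map_mul, map_zpow, lift_apply_of, Perm.mul_apply, ← hy0v, hn0, ← Perm.mul_apply,
            ← zpow_add]
          simp
        cases ε with
        | true =>
          have hk : k ≠ 0 := by
            intro hk
            have := hk0 hk
            rw [this, hM0c, isReduced_cons_cons] at hred
            simpa using hred.1
          obtain ⟨n, hn⟩ := hψ (wd b t x)
          have hψy' : psi (wd b t x) = FreeGroup.lift a ((of i) ^ (n + k - n0) * v0) x := by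
            rw [hn, hy', hy0w, map_mul, map_zpow, lift_apply_of, map_mul, map_zpow, lift_apply_of]
            simp only [← Perm.mul_apply, ← mul_assoc, ← zpow_add]
            congr 3; ring
          apply fin_true _ hψy'
          apply hheads
          intro he
          rw [he, zpow_zero, one_mul, ← hy0v] at hψy'
          have h3 := psi.injective hψy'
          rw [hy', hy0w, ← lift_apply_of (f := a) (x := i), ← map_zpow, ← Perm.mul_apply,
            ← map_mul] at h3
          have h4 := hinj _ _ h3
          have h5 : (of i : FreeGroup (Fin 2)) ^ k = 1 := by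
            have h6 := mul_right_cancel (a := (of i : FreeGroup (Fin 2)) ^ k)
              (b := (of i) ^ (-n0) * v0) (c := 1) (by rw [h4, one_mul])
            exact h6
          obtain ⟨δ, h7⟩ := head_zpow h1head k hk
          rw [h5] at h7
          simp at h7
        | false =>
          apply fin_false ((of i) ^ (k - n0) * v0)
          · rw [hy', hy0w, map_mul, map_zpow, lift_apply_of, map_mul, map_zpow, lift_apply_of]
            simp only [← Perm.mul_apply, ← mul_assoc, ← zpow_add]
            congr 2
          · by_cases he : k - n0 = 0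
            · rw [he, zpow_zero, one_mul, hv0]; simp
            · exact hheads _ he _

/-- Freeness is preserved when a generator is multiplied by an element of the full group of the
other one. -/
theorem free_of_slide {i j : Fin 2} (hij : i ≠ j) {a b : Fin 2 → Perm X} {psi : Perm X}
    (hψ : ∀ y, ∃ n : ℤ, psi y = (a i ^ n) y) (hbi : b i = a i) (hbj : b j = a j * psi)
    (x : X) (hx : ∀ g : FreeGroup (Fin 2), g ≠ 1 → FreeGroup.lift a g x ≠ x) :
    ∀ g : FreeGroup (Fin 2), g ≠ 1 → FreeGroup.lift b g x ≠ x := by
  have hinj : ∀ g h : FreeGroup (Fin 2), FreeGroup.lift a g x = FreeGroup.lift a h x → g = h := by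
    intro g h hgh
    by_contra hne
    have h1 : g⁻¹ * h ≠ 1 := fun h2 => hne (by rw [← mul_one g, ← h2]; group)
    apply hx _ h1
    rw [map_mul, map_inv, Perm.mul_apply, ← hgh, ← Perm.mul_apply, inv_mul_cancel, Perm.one_apply]
  have h1head : ∀ δ, (1 : FreeGroup (Fin 2)).toWord.head? ≠ some (i, δ) := by simp
  have hheads : ∀ (e : ℤ) (δ : Bool), ((of i) ^ e : FreeGroup (Fin 2)).toWord.head? ≠ some (j, δ) := by
    intro e δ
    by_cases he : e = 0
    · subst he; simp
    · obtain ⟨δ', h⟩ := head_zpow h1head e he
      rw [mul_one] at h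
      rw [h]
      intro h2
      simp only [Option.some.injEq, Prod.mk.injEq] at h2
      exact hij h2.1
  intro g hg hgx
  obtain ⟨k, M0, hsuf, hmk, hk0, hM0, -, -⟩ := block i g.toWord isReduced_toWord
  rw [mk_toWord] at hmk
  have hM0red : IsReduced M0 := red_suffix (isReduced_toWord (x := g)) hsuf
  cases hM0c : M0 with
  | nil =>
    have : g = (of i) ^ k := by rw [hmk, hM0c, ← one_eq_mk, mul_one]
    have h2 : FreeGroup.lift b g x = FreeGroup.lift a g x := by
      rw [this, map_zpow, map_zpow, lift_apply_of, lift_apply_of, hbi]
    exact hx g hg (h2 ▸ hgx)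
  | cons c t' =>
    have hcj : c.1 = j := by
      apply fin2_ne hij
      intro hc
      apply hM0 c.2
      rw [hM0c]
      simp only [List.head?_cons, Option.some.injEq]
      exact Prod.ext hc rfl
    obtain ⟨c1, ε⟩ := c
    simp only at hcj
    subst hcj
    obtain ⟨v, hv, hvt, hvf⟩ := claim hij hψ hbi hbj x hx M0.length M0 le_rfl hM0red ε
      (by rw [hM0c]; rfl)
    rw [hmk, map_mul, Perm.mul_apply, map_zpow, lift_apply_of, hbi] at hgx
    have hy0 : wd b M0 x = (a i ^ (-k)) x := by
      change (a i ^ k) (wd b M0 x) = x at hgx
      conv_rhs => rw [← hgx]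
      rw [← Perm.mul_apply, ← zpow_add]
      simp
    cases ε with
    | true =>
      have h3 := hvt rfl
      rw [hy0, ← lift_apply_of (f := a) (x := i), ← map_zpow] at h3
      have h4 := hinj _ _ h3
      rw [← h4] at hv
      exact hheads _ _ hv
    | false =>
      have h3 := hvf rfl
      obtain ⟨n, hn⟩ := hψ (wd b M0 x)
      rw [hn, hy0, ← Perm.mul_apply, ← zpow_add, ← lift_apply_of (f := a) (x := i),
        ← map_zpow] at h3
      have h4 := hinj _ _ h3
      rw [← h4] at hv
      exact hheads _ _ hv

end Pool.Agent.H31.FA
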