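import Mathlib

set_option autoImplicit false

open Equiv MeasureTheory Set

namespace Pool.Agent.H31.FA

/-- A countable cover of the common non-fixed points by sets that are disjoint from their images. -/
theorem exists_cover {X : Type*} [MeasurableSpace X] [StandardBorelSpace X] (K : List (Perm X)) :
    (∀ h ∈ K, Measurable ⇑h) →
    ∃ (ι : Type) (_ : Countable ι) (_ : Nonempty ι) (W : ι → Set X), (∀ m, MeasurableSet (W m)) ∧
      (∀ m, ∀ h ∈ K, ∀ x ∈ W m, h x ∉ W m) ∧ ∀ x, (∀ h ∈ K, h x ≠ x) → ∃ m, x ∈ W m := by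
  induction K with
  | nil => exact fun _ => ⟨Unit, inferInstance, inferInstance, fun _ => univ,
      fun _ => MeasurableSet.univ, by simp, fun x _ => ⟨(), mem_univ x⟩⟩
  | cons h K ih =>
    intro hK
    obtain ⟨ι, hι1, hι2, W, hW1, hW2, hW3⟩ := ih (fun h' hh' => hK h' (List.mem_cons_of_mem _ hh'))
    obtain ⟨S, hS1, hS2⟩ := exists_seq_separating X (p := MeasurableSet) MeasurableSet.empty univ
    have hm : Measurable ⇑h := hK h (by simp)
    refine ⟨ι × ℕ × Bool, inferInstance, inferInstance, fun t => W t.1 ∩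
      (if t.2.2 then (S t.2.1 ∩ (h ⁻¹' (S t.2.1))ᶜ) else ((S t.2.1)ᶜ ∩ (h ⁻¹' (S t.2.1)))), ?_, ?_, ?_⟩
    · intro t
      apply (hW1 _).inter
      split_ifs
      · exact (hS1 _).inter (hm (hS1 _)).compl
      · exact (hS1 _).compl.inter (hm (hS1 _))
    · intro t h' hh' x hx hx'
      rcases List.mem_cons.mp hh' with h1 | h1
      · subst h1
        obtain ⟨-, hx⟩ := hx
        obtain ⟨-, hx'⟩ := hx'
        split_ifs at hx hx'
        · exact hx.2 hx'.1
        · exact hx'.1 hx.2
      · exact hW2 t.1 h' h1 x hx.1 hx'.1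
    · intro x hx
      obtain ⟨m, hm'⟩ := hW3 x (fun h' hh' => hx h' (List.mem_cons_of_mem _ hh'))
      have h1 : h x ≠ x := hx h (by simp)
      have h2 : ∃ n, ¬ (x ∈ S n ↔ h x ∈ S n) := by
        by_contra h3
        push Not at h3
        exact h1 (hS2 x (mem_univ _) (h x) (mem_univ _) h3).symm
      obtain ⟨n, hn⟩ := h2
      by_cases h3 : x ∈ S n
      · refine ⟨(m, n, true), hm', ?_⟩
        simp only [if_true]
        refine ⟨h3, fun h4 => hn ⟨fun _ => h4, fun _ => h3⟩⟩
      · refine ⟨(m, n, false), hm', ?_⟩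
        simp only [Bool.false_eq_true, if_false]
        refine ⟨h3, ?_⟩
        by_contra h4
        exact hn ⟨fun h5 => absurd h5 h3, fun h5 => absurd h5 h4⟩

/-- Neighbours of a set. -/
def nbr {X : Type*} (K : List (Perm X)) (C : Set X) : Set X :=
  {x | ∃ h ∈ K, h x ∈ C ∨ h.symm x ∈ C}

theorem nbr_cons {X : Type*} (h : Perm X) (K : List (Perm X)) (C : Set X) :
    nbr (h :: K) C = (h ⁻¹' C ∪ h.symm ⁻¹' C) ∪ nbr K C := by
  ext x; simp [nbr]

theorem measurableSet_nbr {X : Type*} [MeasurableSpace X] {K : List (Perm X)}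
    (hK : ∀ h ∈ K, Measurable ⇑h ∧ Measurable ⇑h.symm) {C : Set X} (hC : MeasurableSet C) :
    MeasurableSet (nbr K C) := by
  induction K with
  | nil => simp [nbr]
  | cons h K ih =>
    rw [nbr_cons]
    exact (((hK h (by simp)).1 hC).union ((hK h (by simp)).2 hC)).union
      (ih (fun h' hh' => hK h' (List.mem_cons_of_mem _ hh')))

theorem measure_nbr_le {X : Type*} [MeasurableSpace X] {μ : Measure X} [IsProbabilityMeasure μ]
    {K : List (Perm X)}
    (hK : ∀ h ∈ K, Measurable ⇑h ∧ Measurable ⇑h.symm ∧ MeasurePreserving ⇑h μ μ) {C : Set X}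
    (hC : MeasurableSet C) :
    μ.real (nbr K C) ≤ 2 * K.length * μ.real C := by
  induction K with
  | nil => simp [nbr]
  | cons h K ih =>
    rw [nbr_cons]
    have h1 := hK h (by simp)
    have h2 := ih (fun h' hh' => hK h' (List.mem_cons_of_mem _ hh'))
    have h3 : MeasurePreserving ⇑h.symm μ μ := by
      let e : X ≃ᵐ X := ⟨h, h1.1, h1.2.1⟩
      have : MeasurePreserving e μ μ := h1.2.2
      exact this.symm e
    have h4 : μ.real (h ⁻¹' C) = μ.real C := by
      rw [measureReal_def, h1.2.2.measure_preimage hC.nullMeasurableSet, measureReal_def]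
    have h5 : μ.real (h.symm ⁻¹' C) = μ.real C := by
      rw [measureReal_def, h3.measure_preimage hC.nullMeasurableSet, measureReal_def]
    calc μ.real ((h ⁻¹' C ∪ h.symm ⁻¹' C) ∪ nbr K C) ≤ μ.real (h ⁻¹' C ∪ h.symm ⁻¹' C) + μ.real (nbr K C) :=
          measureReal_union_le _ _
      _ ≤ (μ.real (h ⁻¹' C) + μ.real (h.symm ⁻¹' C)) + μ.real (nbr K C) := by
          gcongr; exact measureReal_union_le _ _
      _ ≤ (μ.real C + μ.real C) + 2 * K.length * μ.real C := by rw [h4, h5]; gcongr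
      _ = 2 * (h :: K).length * μ.real C := by rw [List.length_cons]; push_cast; ring

/-- A large measurable independent set. -/
theorem exists_indep {X : Type*} [MeasurableSpace X] [StandardBorelSpace X] {μ : Measure X}
    [IsProbabilityMeasure μ] (K : List (Perm X))
    (hK : ∀ h ∈ K, Measurable ⇑h ∧ Measurable ⇑h.symm ∧ MeasurePreserving ⇑h μ μ)
    (hfix : ∀ h ∈ K, μ {x | h x = x} = 0) (B : Set X) (hB : MeasurableSet B) :
    ∃ C, C ⊆ B ∧ MeasurableSet C ∧ (∀ h ∈ K, ∀ x ∈ C, h x ∉ C) ∧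
      μ.real B ≤ (2 * K.length + 1) * μ.real C := by
  obtain ⟨ι, hι1, hι2, W', hW1', hW2', hW3'⟩ := exists_cover K (fun h hh => (hK h hh).1)
  obtain ⟨f, hf⟩ := exists_surjective_nat ι
  set W : ℕ → Set X := fun n => W' (f n) with hW
  have hW1 : ∀ m, MeasurableSet (W m) := fun m => hW1' _
  have hW2 : ∀ m, ∀ h ∈ K, ∀ x ∈ W m, h x ∉ W m := fun m => hW2' _
  have hW3 : ∀ x, (∀ h ∈ K, h x ≠ x) → ∃ m, x ∈ W m := by
    intro x hx
    obtain ⟨m, hm⟩ := hW3' x hx
    obtain ⟨n, rfl⟩ := hf m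
    exact ⟨n, hm⟩
  let Cs : ℕ → Set X := fun n => Nat.rec ∅ (fun m C => C ∪ ((B ∩ W m) \ nbr K C)) n
  have hC0 : Cs 0 = ∅ := rfl
  have hCs : ∀ m, Cs (m+1) = Cs m ∪ ((B ∩ W m) \ nbr K (Cs m)) := fun m => rfl
  have hmono : Monotone Cs := monotone_nat_of_le_succ (fun m => by rw [hCs]; exact subset_union_left)
  have hmeas : ∀ m, MeasurableSet (Cs m) := by
    intro m
    induction m with
    | zero => rw [hC0]; exact MeasurableSet.empty
    | succ m ih =>
      rw [hCs]
      exact ih.union ((hB.inter (hW1 m)).diff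
        (measurableSet_nbr (fun h hh => ⟨(hK h hh).1, (hK h hh).2.1⟩) ih))
  have hsub : ∀ m, Cs m ⊆ B := by
    intro m
    induction m with
    | zero => rw [hC0]; exact empty_subset _
    | succ m ih =>
      rw [hCs]
      exact union_subset ih (fun x hx => hx.1.1)
  have hind : ∀ m, ∀ h ∈ K, ∀ x ∈ Cs m, h x ∉ Cs m := by
    intro m
    induction m with
    | zero => intro h _ x hx; rw [hC0] at hx; exact absurd hx (notMem_empty _)
    | succ m ih =>
      intro h hh x hx hhx
      rw [hCs] at hx hhx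
      rcases hx with hx | hx
      · rcases hhx with hhx | hhx
        · exact ih h hh x hx hhx
        · exact hhx.2 ⟨h, hh, Or.inr (by simpa using hx)⟩
      · rcases hhx with hhx | hhx
        · exact hx.2 ⟨h, hh, Or.inl hhx⟩
        · exact hW2 m h hh x hx.1.2 hhx.1.2
  set C := ⋃ m, Cs m with hC
  have hCmeas : MeasurableSet C := MeasurableSet.iUnion hmeas
  refine ⟨C, iUnion_subset hsub, hCmeas, ?_, ?_⟩
  · intro h hh x hx hhx
    rw [hC, mem_iUnion] at hx hhx
    obtain ⟨m, hm⟩ := hx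
    obtain ⟨n, hn⟩ := hhx
    exact hind (max m n) h hh x (hmono (le_max_left _ _) hm) (hmono (le_max_right _ _) hn)
  · have hcov : B ⊆ (C ∪ nbr K C) ∪ {x | ∃ h ∈ K, h x = x} := by
      intro x hx
      by_cases h1 : ∀ h ∈ K, h x ≠ x
      · left
        obtain ⟨m, hm⟩ := hW3 x h1
        by_cases h2 : x ∈ nbr K (Cs m)
        · right
          obtain ⟨h, hh, h3⟩ := h2
          exact ⟨h, hh, h3.imp (fun h4 => mem_iUnion.mpr ⟨m, h4⟩) (fun h4 => mem_iUnion.mpr ⟨m, h4⟩)⟩
        · left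
          exact mem_iUnion.mpr ⟨m+1, by rw [hCs]; exact Or.inr ⟨⟨hx, hm⟩, h2⟩⟩
      · right
        push Not at h1
        exact h1
    have hnull : μ {x | ∃ h ∈ K, h x = x} = 0 := by
      have : {x | ∃ h ∈ K, h x = x} = ⋃ h ∈ {h | h ∈ K}, {x | h x = x} := by
        ext x; simp
      rw [this, measure_biUnion_null_iff (List.finite_toSet K).countable]
      exact hfix
    have h1 : μ.real B ≤ μ.real (C ∪ nbr K C) + μ.real {x | ∃ h ∈ K, h x = x} :=
      (measureReal_mono hcov).trans (measureReal_union_le _ _)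
    have h2 : μ.real {x | ∃ h ∈ K, h x = x} = 0 := by rw [measureReal_def, hnull]; rfl
    have h3 := measureReal_union_le (μ := μ) C (nbr K C)
    have h4 := measure_nbr_le hK hCmeas
    calc μ.real B ≤ μ.real C + 2 * K.length * μ.real C := by linarith
      _ = (2 * K.length + 1) * μ.real C := by ring

end Pool.Agent.H31.FA
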