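import Mathlib
import Pool.Agent.H31.FA.Comb

set_option autoImplicit false

open Equiv
open FreeGroup hiding map_mul map_inv map_one

namespace Pool.Agent.H31.FA

variable {X : Type*}

/-- The positions at which the perturbation `chi` is applied when a word is evaluated. -/
def src (j : Fin 2) : List (Fin 2 × Bool) → List (FreeGroup (Fin 2))
  | [] => []
  | (c, e) :: L =>
    if c = j then (if e then mk L else mk ((j, false) :: L)) :: src j L else src j L

theorem src_spec {a : Fin 2 → Perm X} {j : Fin 2} {chi : Perm X} {x : X} :
    ∀ (L : List (Fin 2 × Bool)),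
      (∀ h ∈ src j L, chi (FreeGroup.lift a h x) = FreeGroup.lift a h x) →
      wd (Function.update a j (a j * chi)) L x = wd a L x := by
  intro L
  induction L with
  | nil => intro _; rw [wd_nil, wd_nil]
  | cons l L ih =>
    intro h
    obtain ⟨c, e⟩ := l
    rw [wd_cons, wd_cons, Perm.mul_apply, Perm.mul_apply]
    by_cases hc : c = j
    · subst hc
      have h1 : ∀ h ∈ src c L, chi (FreeGroup.lift a h x) = FreeGroup.lift a h x := by
        intro h' hh'
        apply h
        simp only [src, if_true]
        exact List.mem_cons_of_mem _ hh'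
      have h2 := h (if e then mk L else mk ((c, false) :: L)) (by simp [src])
      rw [ih h1]
      cases e with
      | true =>
        simp only [cond_true, Function.update_self, Perm.mul_apply]
        congr 1
      | false =>
        simp only [cond_false, Function.update_self, mul_inv_rev, Perm.mul_apply]
        simp only [Bool.false_eq_true, if_false] at h2
        have h3 : (a c)⁻¹ (wd a L x) = FreeGroup.lift a (mk ((c, false) :: L)) x := by
          have := wd_cons a (c, false) L
          rw [wd] at this
          rw [this]; rfl
        rw [h3, Perm.inv_eq_iff_eq]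
        exact h2.symm
    · have h1 : ∀ h ∈ src j L, chi (FreeGroup.lift a h x) = FreeGroup.lift a h x := by
        intro h' hh'
        apply h
        simp only [src, if_neg hc]
        exact hh'
      rw [ih h1]
      simp only [Function.update_of_ne hc]

theorem length_src (j : Fin 2) (L : List (Fin 2 × Bool)) : (src j L).length ≤ L.length := by
  induction L with
  | nil => simp [src]
  | cons l L ih =>
    obtain ⟨c, e⟩ := l
    simp only [src]
    split_ifs <;> simp <;> omega

theorem src_suffix {j : Fin 2} {L L' : List (Fin 2 × Bool)} (h : L' <:+ L) :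
    ∀ g ∈ src j L', g ∈ src j L := by
  induction L with
  | nil =>
    intro g hg
    have : L' = [] := List.suffix_nil.mp h
    rw [this] at hg; exact hg
  | cons l L ih =>
    intro g hg
    rcases List.suffix_cons_iff.mp h with h1 | h1
    · rw [← h1]; exact hg
    · have := ih h1 g hg
      obtain ⟨c, e⟩ := l
      simp only [src]
      split_ifs
      · exact List.mem_cons_of_mem _ this
      · exact List.mem_cons_of_mem _ this
      · exact this

theorem mem_src {j : Fin 2} {L : List (Fin 2 × Bool)} {g : FreeGroup (Fin 2)} (h : g ∈ src j L) :
    ∃ M : List (Fin 2 × Bool), g = mk M ∧ M <:+ L ∧ (M = [] → [(j, true)] <:+ L) := by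
  induction L with
  | nil => simp [src] at h
  | cons l L ih =>
    obtain ⟨c, e⟩ := l
    have key : g ∈ src j L → ∃ M : List (Fin 2 × Bool), g = mk M ∧ M <:+ (c, e) :: L ∧
        (M = [] → [(j, true)] <:+ (c, e) :: L) := by
      intro h
      obtain ⟨M, h1, h2, h3⟩ := ih h
      exact ⟨M, h1, h2.trans (List.suffix_cons _ _), fun h4 => (h3 h4).trans (List.suffix_cons _ _)⟩
    simp only [src] at h
    split_ifs at h with hc he
    · rcases List.mem_cons.mp h with h1 | h1
      · subst hc
        refine ⟨L, h1, List.suffix_cons _ _, fun h2 => ?_⟩
        rw [h2, he]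
      · exact key h1
    · rcases List.mem_cons.mp h with h1 | h1
      · subst hc
        refine ⟨(c, e) :: L, ?_, List.suffix_refl _, fun h2 => by simp at h2⟩
        rw [h1]
        simp at he
        rw [he]
      · exact key h1
    · exact key h

theorem mk_ne_one {L : List (Fin 2 × Bool)} (hL : IsReduced L) (hne : L ≠ []) :
    (mk L : FreeGroup (Fin 2)) ≠ 1 := by
  intro h
  have h1 : (mk L : FreeGroup (Fin 2)).toWord = [] := by rw [h]; simp
  rw [toWord_mk, hL.reduce_eq] at h1
  exact hne h1

theorem norm_pow_of (i : Fin 2) (n : ℕ) : ((of i : FreeGroup (Fin 2)) ^ n).norm = n := by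
  rw [FreeGroup.norm, toWord_of_pow, List.length_replicate]

/-- A short element is not equal to the inverse of a long power of a generator or to that power. -/
theorem pow_ne {i : Fin 2} {n : ℕ} {L : List (Fin 2 × Bool)} (h : L.length < n) :
    (of i : FreeGroup (Fin 2)) ^ n ≠ mk L ∧ ((of i : FreeGroup (Fin 2)) ^ n)⁻¹ ≠ mk L := by
  have h1 : (mk L : FreeGroup (Fin 2)).norm ≤ L.length := norm_mk_le
  constructor
  · intro h2
    rw [← h2, norm_pow_of] at h1
    omega
  · intro h2
    rw [← h2, norm_inv_eq, norm_pow_of] at h1
    omega

end Pool.Agent.H31.FA
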