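import Mathlib
import Pool.Agent.H31.FA.Src

set_option autoImplicit false

open Equiv
open FreeGroup hiding map_mul map_inv map_one

namespace Pool.Agent.H31.FA

variable {X : Type*}

/-- The `m`-th power of a word. -/
def fwd (W : List (Fin 2 × Bool)) (m : ℕ) : List (Fin 2 × Bool) := (List.replicate m W).flatten

theorem fwd_zero (W : List (Fin 2 × Bool)) : fwd W 0 = [] := by simp [fwd]

theorem fwd_succ (W : List (Fin 2 × Bool)) (m : ℕ) : fwd W (m+1) = fwd W m ++ W := by
  rw [fwd, List.replicate_succ', List.flatten_concat]; rfl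

theorem fwd_add (W : List (Fin 2 × Bool)) (m n : ℕ) : fwd W (m+n) = fwd W m ++ fwd W n := by
  rw [fwd, List.replicate_add, List.flatten_append]; rfl

theorem length_fwd (W : List (Fin 2 × Bool)) (m : ℕ) : (fwd W m).length = m * W.length := by
  induction m with
  | zero => simp [fwd]
  | succ m ih => rw [fwd_succ, List.length_append, ih]; ring

theorem wd_fwd (a : Fin 2 → Perm X) (W : List (Fin 2 × Bool)) (m : ℕ) :
    wd a (fwd W m) = (wd a W) ^ m := by
  induction m with
  | zero => rw [fwd_zero, wd_nil, pow_zero]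
  | succ m ih => rw [fwd_succ, wd_append, ih, pow_succ]

theorem wd_invRev (a : Fin 2 → Perm X) (W : List (Fin 2 × Bool)) :
    wd a (invRev W) = (wd a W)⁻¹ := by
  rw [wd, ← inv_mk, _root_.map_inv]; rfl

theorem fwd_suffix (W : List (Fin 2 × Bool)) {m n : ℕ} (h : m ≤ n) : fwd W m <:+ fwd W n := by
  obtain ⟨k, rfl⟩ := Nat.exists_eq_add_of_le' h
  rw [fwd_add]
  exact List.suffix_append _ _

theorem append_suffix_append {α : Type*} {A B C : List α} (h : A <:+ B) : A ++ C <:+ B ++ C := by
  obtain ⟨t, rfl⟩ := h
  exact ⟨t, by simp⟩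

theorem mk_fwd (W : List (Fin 2 × Bool)) (m : ℕ) :
    (mk (fwd W m) : FreeGroup (Fin 2)) = (mk W) ^ m := by
  induction m with
  | zero => rw [fwd_zero, pow_zero]; rfl
  | succ m ih => rw [fwd_succ, ← mul_mk, ih, pow_succ]

theorem exists_list {i j : Fin 2} {W R0 : List (Fin 2 × Bool)}
    (hW : IsCyclicallyReduced W) (hR : W = R0 ++ [(j, true)]) (M n : ℕ) (hn : (M + 1) * W.length < n) :
    ∃ K : List (FreeGroup (Fin 2)), K.length ≤ (M + 1) * (4 * W.length) + (M + 1) + 1 ∧
      (∀ h ∈ K, h ≠ 1) ∧
      ∀ (a : Fin 2 → Perm X) (C : Set X), (∀ h ∈ K, ∀ x ∈ C, FreeGroup.lift a h x ∉ C) →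
        (∀ x ∈ C, (a i ^ n) x ∉ C) ∧
        (∀ k, 1 ≤ k → k ≤ M + 1 → ∀ x ∈ C, ((wd a W) ^ k) x ∉ C) ∧
        ∀ chi : Perm X, (∀ x ∈ C, chi x = (a i ^ n) x) →
          (∀ x, x ∉ C → (a i ^ n)⁻¹ x ∉ C → chi x = x) → ∀ z ∈ C,
          (∀ p, p ≤ M + 1 → ((wd (Function.update a j (a j * chi)) W) ^ p)⁻¹ z = ((wd a W) ^ p)⁻¹ z) ∧
          (∀ p, 1 ≤ p → p ≤ M + 1 → ((wd (Function.update a j (a j * chi)) W) ^ p) z
            = ((wd a W) ^ p) ((a i ^ n) z)) := by
  have hWne : W ≠ [] := by rw [hR]; simp
  have hfred : ∀ m, IsReduced (fwd W m) := fun m => (hW.flatten_replicate m).isReduced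
  have hWlast : W.getLast? = some (j, true) := by rw [hR]; simp
  -- the backward word
  have hbcyc : IsCyclicallyReduced (invRev W) := by
    refine ⟨IsReduced.of_reduce_eq (by rw [reduce_invRev, hW.isReduced.reduce_eq]), ?_⟩
    intro x hx y hy hxy
    simp only [invRev, List.getLast?_reverse, List.head?_reverse, List.head?_map,
      List.getLast?_map, Option.mem_def, Option.map_eq_some_iff] at hx hy
    obtain ⟨x', hx', rfl⟩ := hx
    obtain ⟨y', hy', rfl⟩ := hy
    have := hW.2 y' hy' x' hx' hxy.symm
    simp [this]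
  have hbred : ∀ m, IsReduced (fwd (invRev W) m) := fun m => (hbcyc.flatten_replicate m).isReduced
  have hblast : ∀ m, ¬ [(j, true)] <:+ fwd (invRev W) m := by
    intro m h
    cases m with
    | zero => rw [fwd_zero] at h; simp at h
    | succ m =>
      rw [fwd_succ] at h
      obtain ⟨t, ht⟩ := h
      have h1 := congrArg List.getLast? ht
      rw [List.getLast?_append, List.getLast?_append] at h1
      have h2 : (invRev W).getLast? = W.head?.map (fun g => (g.1, !g.2)) := by
        simp [invRev, List.getLast?_reverse, List.head?_map]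
      rw [h2] at h1
      cases hc : W with
      | nil => exact hWne hc
      | cons c W' =>
        rw [hc] at h1
        simp at h1
        have h3 := hW.2 (j, true) (by rw [hWlast]; simp) c (by rw [hc]; simp) h1.1
        simp [← h3] at h1
  set P : FreeGroup (Fin 2) := (of i) ^ n with hP
  set BB := fwd (invRev W) (M+1) with hBB
  set FF := fwd W M ++ R0 with hFF
  have hFFlast : FF ++ [(j, true)] = fwd W (M+1) := by
    rw [fwd_succ, hFF, List.append_assoc, ← hR]
  have hlenBB : BB.length = (M+1) * W.length := by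
    rw [hBB, length_fwd, invRev_length]
  have hlenFF : FF.length + 1 = (M+1) * W.length := by
    rw [← length_fwd, ← hFFlast]; simp
  have hmkFF : ∀ M0 : List (Fin 2 × Bool), mk M0 * of j = mk (M0 ++ [(j, true)]) := by
    intro M0; rw [← mul_mk]; rfl
  refine ⟨[P] ++ (List.range (M+1)).map (fun k => (mk W) ^ (k+1)) ++ src j BB ++
    (src j BB).map (fun h => P⁻¹ * h) ++ (src j FF).map (fun h => h * of j * P) ++
    (src j FF).map (fun h => P⁻¹ * (h * of j * P)), ?_, ?_, ?_⟩
  · simp only [List.length_append, List.length_map, List.length_range, List.length_singleton]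
    have h1 := length_src j BB
    have h2 := length_src j FF
    rw [hlenBB] at h1
    have h3 : (src j FF).length ≤ (M+1) * W.length := by omega
    have h4 : (M + 1) * (4 * W.length) = 4 * ((M+1) * W.length) := by ring
    omega
  · intro h hh
    simp only [List.mem_append, List.mem_map, List.mem_range, List.mem_singleton] at hh
    rcases hh with ((((hh | ⟨k, hk, rfl⟩) | hh) | ⟨g, hg, rfl⟩) | ⟨g, hg, rfl⟩) | ⟨g, hg, rfl⟩
    · rw [hh]
      have := (pow_ne (i := i) (n := n) (L := []) (by simp; omega)).1
      intro h1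
      exact this (by rw [← hP, h1]; rfl)
    · rw [← mk_fwd]
      apply mk_ne_one (hfred _)
      rw [fwd_succ]
      simp [hWne]
    · obtain ⟨M0, rfl, h2, h3⟩ := mem_src hh
      apply mk_ne_one (red_suffix (hbred _) h2)
      intro h4
      exact hblast _ (h3 h4)
    · obtain ⟨M0, rfl, h2, h3⟩ := mem_src hg
      intro h4
      have h5 := inv_mul_eq_one.mp h4
      refine (pow_ne (i := i) (n := n) (L := M0) ?_).1 h5
      have := h2.length_le
      omega
    · obtain ⟨M0, rfl, h2, h3⟩ := mem_src hg
      rw [hmkFF]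
      intro h4
      have h5 := eq_inv_of_mul_eq_one_left h4
      refine (pow_ne (i := i) (n := n) (L := M0 ++ [(j, true)]) ?_).2 h5.symm
      have := h2.length_le
      simp
      omega
    · obtain ⟨M0, rfl, h2, h3⟩ := mem_src hg
      rw [hmkFF]
      intro h4
      have h5 : (mk (M0 ++ [(j, true)]) : FreeGroup (Fin 2)) = 1 := by
        rw [inv_mul_eq_one] at h4
        exact mul_eq_right.mp h4.symm
      refine mk_ne_one (red_suffix (hfred (M+1)) ?_) (by simp) h5
      rw [← hFFlast]
      exact append_suffix_append h2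
  · intro a C hC
    simp only [List.mem_append, List.mem_map, List.mem_range, List.mem_singleton] at hC
    have hPa : ∀ x, FreeGroup.lift a P x = (a i ^ n) x := by
      intro x; rw [hP, _root_.map_pow, lift_apply_of]
    have hPinv : ∀ x, FreeGroup.lift a P⁻¹ x = (a i ^ n)⁻¹ x := by
      intro x; rw [_root_.map_inv, hP, _root_.map_pow, lift_apply_of]
    refine ⟨?_, ?_, ?_⟩
    · intro x hx
      rw [← hPa]
      exact hC P (by simp) x hx
    · intro k hk1 hk2 x hx
      have := hC ((mk W)^k) (Or.inl (Or.inl (Or.inl (Or.inl (Or.inr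
        ⟨k-1, by omega, by rw [Nat.sub_add_cancel hk1]⟩))))) x hx
      rw [_root_.map_pow] at this
      exact this
    · intro chi hchi1 hchi2 z hz
      constructor
      · intro p hp
        have h1 : ∀ b : Fin 2 → Perm X, ((wd b W)^p)⁻¹ = wd b (fwd (invRev W) p) := by
          intro b
          rw [wd_fwd, wd_invRev, inv_pow]
        rw [h1, h1]
        apply src_spec
        intro h hh
        have hh' := src_suffix (fwd_suffix (invRev W) hp) h hh
        apply hchi2
        · exact hC h (by simp only [← hBB] at hh'; tauto) z hz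
        · have := hC (P⁻¹ * h) (by
            refine Or.inl (Or.inl (Or.inr ⟨h, hh', rfl⟩))) z hz
          rwa [_root_.map_mul, Perm.mul_apply, hPinv] at this
      · intro p hp1 hp2
        obtain ⟨q, rfl⟩ := Nat.exists_eq_add_of_le' hp1
        have h1 : ∀ b : Fin 2 → Perm X, ∀ x, ((wd b W)^(q+1)) x = wd b (fwd W q ++ R0) (b j x) := by
          intro b x
          have : fwd W (q+1) = (fwd W q ++ R0) ++ [(j, true)] := by
            rw [fwd_succ, List.append_assoc, ← hR]
          rw [← wd_fwd, this, wd_append, Perm.mul_apply, wd_cons, wd_nil]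
          simp
        rw [h1, h1]
        simp only [Function.update_self, Perm.mul_apply]
        rw [hchi1 z hz]
        apply src_spec
        intro h hh
        have hsuf : fwd W q ++ R0 <:+ FF := by
          rw [hFF]
          exact append_suffix_append (fwd_suffix W (by omega))
        have hh' := src_suffix hsuf h hh
        have h2 : FreeGroup.lift a h ((a j) ((a i ^ n) z)) = FreeGroup.lift a (h * of j * P) z := by
          rw [_root_.map_mul, Perm.mul_apply, hPa, _root_.map_mul, Perm.mul_apply, lift_apply_of]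
        rw [h2]
        apply hchi2
        · exact hC _ (Or.inl (Or.inr ⟨h, hh', rfl⟩)) z hz
        · have := hC (P⁻¹ * (h * of j * P)) (Or.inr ⟨h, hh', rfl⟩) z hz
          rwa [_root_.map_mul, Perm.mul_apply, hPinv] at this

end Pool.Agent.H31.FA
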