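import Mathlib
import Pool.Agent.H31.FA.Orbit
import Pool.Agent.H31.FA.Indep

set_option autoImplicit false

open Equiv MeasureTheory Set
open FreeGroup hiding map_mul map_inv map_one

namespace Pool.Agent.H31.FA

/-- The group of measure preserving permutations that are measurable with measurable inverse. -/
def MP {X : Type*} [MeasurableSpace X] (μ : Measure X) : Subgroup (Perm X) where
  carrier := {f | Measurable ⇑f ∧ Measurable ⇑f.symm ∧ MeasurePreserving ⇑f μ μ}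
  mul_mem' := by
    intro f g hf hg
    exact ⟨hf.1.comp hg.1, hg.2.1.comp hf.2.1, hf.2.2.comp hg.2.2⟩
  one_mem' := ⟨measurable_id, measurable_id, MeasurePreserving.id μ⟩
  inv_mem' := by
    intro f hf
    refine ⟨hf.2.1, hf.1, ?_⟩
    let e : X ≃ᵐ X := ⟨f, hf.1, hf.2.1⟩
    have : MeasurePreserving e μ μ := hf.2.2
    exact this.symm e

theorem mem_MP {X : Type*} [MeasurableSpace X] {μ : Measure X} {f : Perm X} :
    f ∈ MP μ ↔ Measurable ⇑f ∧ Measurable ⇑f.symm ∧ MeasurePreserving ⇑f μ μ := Iff.rfl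

theorem lift_mem_MP {X : Type*} [MeasurableSpace X] {μ : Measure X} {a : Fin 2 → Perm X}
    (ha : ∀ i, a i ∈ MP μ) (g : FreeGroup (Fin 2)) : FreeGroup.lift a g ∈ MP μ := by
  have : (FreeGroup.lift a).range ≤ MP μ := by
    rw [FreeGroup.range_lift_eq_closure, Subgroup.closure_le]
    rintro _ ⟨i, rfl⟩
    exact ha i
  exact this ⟨g, rfl⟩

theorem measure_preimage_MP {X : Type*} [MeasurableSpace X] {μ : Measure X} {f : Perm X}
    (hf : f ∈ MP μ) (A : Set X) : μ (f ⁻¹' A) = μ A := by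
  let e : X ≃ᵐ X := ⟨f, hf.1, hf.2.1⟩
  have : MeasurePreserving e μ μ := hf.2.2
  exact this.measure_preimage_equiv A

theorem measureReal_preimage_MP {X : Type*} [MeasurableSpace X] {μ : Measure X} {f : Perm X}
    (hf : f ∈ MP μ) (A : Set X) : μ.real (f ⁻¹' A) = μ.real A := by
  rw [measureReal_def, measure_preimage_MP hf, measureReal_def]

open Classical in
/-- The swap `z ↔ P z` for `z ∈ C`. -/
noncomputable def swapFun {X : Type*} (P : Perm X) (C : Set X) (x : X) : X :=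
  if x ∈ C then P x else if P⁻¹ x ∈ C then P⁻¹ x else x

theorem swap_inv {X : Type*} (P : Perm X) (C : Set X) (h : ∀ x ∈ C, P x ∉ C) :
    Function.Involutive (swapFun P C) := by
  intro x
  unfold swapFun
  by_cases h1 : x ∈ C
  · have : P⁻¹ (P x) = x := by rw [← Perm.mul_apply]; simp
    rw [if_pos h1, if_neg (h x h1), this, if_pos h1]
  · by_cases h2 : P⁻¹ x ∈ C
    · simp only [h1, if_false, h2, if_true]
      rw [← Perm.mul_apply]; simp
    · simp only [h1, h2, if_false]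

theorem exists_swap {X : Type*} [MeasurableSpace X] {μ : Measure X} [IsProbabilityMeasure μ]
    {S : Perm X} (hS : S ∈ MP μ) (n : ℕ) {C : Set X} (hC : MeasurableSet C)
    (h : ∀ x ∈ C, (S ^ n) x ∉ C) :
    ∃ chi : Perm X, Measurable ⇑chi ∧ Measurable ⇑chi.symm ∧ (∀ x, ∃ k : ℤ, chi x = (S ^ k) x) ∧
      (∀ x ∈ C, chi x = (S ^ n) x) ∧ (∀ x, x ∉ C → (S ^ n)⁻¹ x ∉ C → chi x = x) ∧
      μ.real {x | chi x ≠ x} ≤ 2 * μ.real C := by
  classical
  have hP : S ^ n ∈ MP μ := (MP μ).pow_mem hS n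
  have hPi : (S ^ n)⁻¹ ∈ MP μ := (MP μ).inv_mem hP
  have hinv := swap_inv (S ^ n) C h
  have hmeas : Measurable (swapFun (S ^ n) C) := by
    unfold swapFun
    exact Measurable.ite hC hP.1 (Measurable.ite (hPi.1 hC) hPi.1 measurable_id)
  refine ⟨Function.Involutive.toPerm _ hinv, hmeas, hmeas, ?_, ?_, ?_, ?_⟩
  · intro x
    rw [Function.Involutive.coe_toPerm]
    unfold swapFun
    split_ifs
    · exact ⟨n, by rw [zpow_natCast]⟩
    · exact ⟨-n, by rw [zpow_neg, zpow_natCast]⟩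
    · exact ⟨0, by simp⟩
  · intro x hx
    rw [Function.Involutive.coe_toPerm]
    unfold swapFun
    rw [if_pos hx]
  · intro x hx hx'
    rw [Function.Involutive.coe_toPerm]
    unfold swapFun
    rw [if_neg hx, if_neg hx']
  · have h1 : {x | (Function.Involutive.toPerm _ hinv) x ≠ x} ⊆ C ∪ (⇑(S ^ n)⁻¹) ⁻¹' C := by
      intro x hx
      by_contra h2
      simp only [mem_union, mem_preimage, not_or] at h2
      apply hx
      rw [Function.Involutive.coe_toPerm]
      unfold swapFun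
      rw [if_neg h2.1, if_neg h2.2]
    calc μ.real {x | (Function.Involutive.toPerm _ hinv) x ≠ x} ≤ μ.real (C ∪ (⇑(S ^ n)⁻¹) ⁻¹' C) := measureReal_mono h1
      _ ≤ μ.real C + μ.real ((⇑(S ^ n)⁻¹) ⁻¹' C) := measureReal_union_le _ _
      _ = 2 * μ.real C := by rw [measureReal_preimage_MP hPi]; ring

theorem real_symmDiff_triangle {X : Type*} [MeasurableSpace X] {μ : Measure X}
    [IsProbabilityMeasure μ] (A B C : Set X) :
    μ.real (symmDiff A C) ≤ μ.real (symmDiff A B) + μ.real (symmDiff B C) :=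
  (measureReal_mono (symmDiff_triangle A B C)).trans (measureReal_union_le _ _)

theorem exists_large {X : Type*} [MeasurableSpace X] {μ : Measure X} [IsProbabilityMeasure μ]
    {S : Perm X} (hS : S ∈ MP μ) {A : Set X} {δ : ℝ} (hδ : δ ≤ μ.real (symmDiff A (S ⁻¹' A)))
    (N : ℕ) : ∃ n, N < n ∧ δ / 2 ≤ μ.real (symmDiff A (⇑(S ^ n) ⁻¹' A)) := by
  by_contra h
  push Not at h
  have h1 := h (N+1) (by omega)
  have h2 := h (N+2) (by omega)
  have h3 : μ.real (symmDiff A (S ⁻¹' A)) = μ.real (symmDiff (⇑(S ^ (N+1)) ⁻¹' A) (⇑(S ^ (N+2)) ⁻¹' A)) := by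
    rw [← measureReal_preimage_MP ((MP μ).pow_mem hS (N+1)) (symmDiff A (S ⁻¹' A))]
    have : (⇑(S ^ (N+1))) ⁻¹' (symmDiff A (S ⁻¹' A)) =
        symmDiff ((⇑(S ^ (N+1))) ⁻¹' A) ((⇑(S ^ (N+2))) ⁻¹' A) := by
      ext x
      have h4 : (S ^ (N+2)) x = S ((S ^ (N+1)) x) := by
        rw [pow_succ' S (N+1), Perm.mul_apply]
      simp only [mem_preimage, Set.mem_symmDiff, h4]
    rw [this]
  have h4 := real_symmDiff_triangle (μ := μ) (⇑(S ^ (N+1)) ⁻¹' A) A (⇑(S ^ (N+2)) ⁻¹' A)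
  rw [symmDiff_comm (⇑(S ^ (N+1)) ⁻¹' A) A] at h4
  linarith

theorem zpow_mem_iff {X : Type*} {g : Perm X} {A : Set X} (hinv : ∀ x, g x ∈ A ↔ x ∈ A) (n : ℕ)
    (x : X) : (g ^ n) x ∈ A ↔ x ∈ A := by
  induction n generalizing x with
  | zero => simp
  | succ n ih => rw [pow_succ, Perm.mul_apply, ih, hinv]

theorem zpow_inv_mem_iff {X : Type*} {g : Perm X} {A : Set X} (hinv : ∀ x, g x ∈ A ↔ x ∈ A) (n : ℕ)
    (x : X) : ((g ^ n)⁻¹) x ∈ A ↔ x ∈ A := by
  rw [← zpow_mem_iff hinv n ((g ^ n)⁻¹ x), ← Perm.mul_apply]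
  simp

theorem perturb {X : Type*} [MeasurableSpace X] [StandardBorelSpace X] {μ : Measure X}
    [IsProbabilityMeasure μ] {i j : Fin 2} {a : Fin 2 → Perm X} (ha : ∀ i, a i ∈ MP μ)
    (hfree : ∀ g : FreeGroup (Fin 2), g ≠ 1 → μ {x | (FreeGroup.lift a g) x = x} = 0)
    {W : List (Fin 2 × Bool)} (hW : IsCyclicallyReduced W) (hlast : W.getLast? = some (j, true))
    {A : Set X} (hA : MeasurableSet A) (hinv : ∀ x, wd a W x ∈ A ↔ x ∈ A)
    {δ : ℝ} (hS : δ ≤ μ.real (symmDiff A (a i ⁻¹' A))) (M0 : ℕ) :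
    ∃ chi : Perm X, Measurable ⇑chi ∧ Measurable ⇑chi.symm ∧
      (∀ x, ∃ k : ℤ, chi x = (a i ^ k) x) ∧
      μ.real {x | chi x ≠ x} ≤ 2 / ((M0 : ℝ) + 1) ∧
      δ / (2 * (8 * W.length + 5)) ≤
        μ.real (symmDiff A (⇑((wd (Function.update a j (a j * chi)) W) ^ (M0 + 2)) ⁻¹' A)) := by
  obtain ⟨R0, hR⟩ : ∃ R0, W = R0 ++ [(j, true)] := by
    have hne : W ≠ [] := by intro h; rw [h] at hlast; simp at hlast
    refine ⟨W.dropLast, ?_⟩
    conv_lhs => rw [← List.dropLast_append_getLast hne]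
    rw [List.getLast?_eq_getLast_of_ne_nil hne] at hlast
    rw [Option.some.inj hlast]
  obtain ⟨n, hn1, hn2⟩ := exists_large (ha i) hS ((M0 + 1) * W.length)
  obtain ⟨K, hK1, hK2, hK3⟩ := exists_list (i := i) hW hR M0 n hn1
  set B := symmDiff A (⇑(a i ^ n) ⁻¹' A) with hB
  have hPn : a i ^ n ∈ MP μ := (MP μ).pow_mem (ha i) n
  have hBm : MeasurableSet B := hA.symmDiff (hPn.1 hA)
  obtain ⟨C, hCB, hCm, hCK, hCμ⟩ := exists_indep (μ := μ) (K.map (FreeGroup.lift a))
    (by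
      intro h hh
      obtain ⟨g, hg, rfl⟩ := List.mem_map.mp hh
      exact lift_mem_MP ha g)
    (by
      intro h hh
      obtain ⟨g, hg, rfl⟩ := List.mem_map.mp hh
      exact hfree g (hK2 g hg)) B hBm
  obtain ⟨h1, h2, h3⟩ := hK3 a C (by
    intro h hh x hx
    exact hCK _ (List.mem_map.mpr ⟨h, hh, rfl⟩) x hx)
  obtain ⟨chi, hc1, hc2, hc3, hc4, hc5, hc6⟩ := exists_swap (ha i) n hCm h1
  have h4 := h3 chi hc4 hc5
  set b := Function.update a j (a j * chi) with hb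
  set g := wd a W with hg
  set g' := wd b W with hg'
  have hgMP : g ∈ MP μ := lift_mem_MP ha _
  -- the disjoint translates
  set D : ℕ → Set X := fun p => ⇑(g ^ (p + 1)) ⁻¹' C with hD
  have hDm : ∀ p, MeasurableSet (D p) := fun p => ((MP μ).pow_mem hgMP (p+1)).1 hCm
  have hDμ : ∀ p, μ.real (D p) = μ.real C :=
    fun p => measureReal_preimage_MP ((MP μ).pow_mem hgMP (p+1)) C
  have hDdis' : ∀ p q, p < q → q < M0 + 1 → Disjoint (D p) (D q) := by
    intro p q hpq hq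
    rw [Set.disjoint_left]
    intro x hx hx'
    have h5 := h2 (q - p) (by omega) (by omega) _ hx
    apply h5
    rw [← Perm.mul_apply, ← pow_add]
    have : q - p + (p + 1) = q + 1 := by omega
    rw [this]
    exact hx'
  have hDdis : PairwiseDisjoint (↑(Finset.range (M0+1)) : Set ℕ) D := by
    intro p hp q hq hpq
    simp only [Finset.coe_range, mem_Iio] at hp hq
    rcases lt_or_gt_of_ne hpq with h5 | h5
    · exact hDdis' p q h5 hq
    · exact (hDdis' q p h5 hp).symm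
  have hsum : μ.real (⋃ p ∈ Finset.range (M0+1), D p) = (M0 + 1) * μ.real C := by
    rw [measureReal_biUnion_finset hDdis (fun p _ => hDm p), Finset.sum_congr rfl (fun p _ => hDμ p)]
    simp
  have hsub : (⋃ p ∈ Finset.range (M0+1), D p) ⊆ symmDiff A (⇑(g' ^ (M0 + 2)) ⁻¹' A) := by
    intro y hy
    simp only [mem_iUnion, Finset.mem_range] at hy
    obtain ⟨p, hp, hy⟩ := hy
    have hz : (g ^ (p+1)) y ∈ C := hy
    set z := (g ^ (p+1)) y with hz'
    have h5 := (h4 z hz).1 (p+1) (by omega)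
    have h6 := (h4 z hz).2 (M0 + 1 - p) (by omega) (by omega)
    have hyz : y = (g ^ (p+1))⁻¹ z := by rw [hz', ← Perm.mul_apply]; simp
    have hyz' : (g' ^ (p+1)) y = z := by
      rw [hyz, ← h5, ← Perm.mul_apply]; simp
    have h7 : (g' ^ (M0 + 2)) y = (g ^ (M0 + 1 - p)) ((a i ^ n) z) := by
      have : M0 + 2 = (M0 + 1 - p) + (p + 1) := by omega
      rw [this, pow_add, Perm.mul_apply, hyz', h6]
    have h8 : y ∈ A ↔ z ∈ A := by
      rw [hyz]; exact zpow_inv_mem_iff hinv _ _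
    have h9 : (g' ^ (M0 + 2)) y ∈ A ↔ (a i ^ n) z ∈ A := by
      rw [h7]; exact zpow_mem_iff hinv _ _
    have h10 : z ∈ B := hCB hz
    rw [hB, Set.mem_symmDiff] at h10
    rw [Set.mem_symmDiff, h8, mem_preimage, h9]
    exact h10
  have hfin := measureReal_mono (μ := μ) hsub
  rw [hsum] at hfin
  have hone : (M0 + 1 : ℝ) * μ.real C ≤ 1 := by
    rw [← hsum]; exact measureReal_le_one
  have hM0 : (0 : ℝ) < M0 + 1 := by positivity
  refine ⟨chi, hc1, hc2, hc3, ?_, ?_⟩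
  · refine hc6.trans ?_
    rw [le_div_iff₀ hM0]
    linarith
  · refine le_trans ?_ hfin
    rw [List.length_map] at hCμ
    have hKr : (K.length : ℝ) ≤ (M0 + 1) * (4 * W.length) + (M0 + 1) + 1 := by exact_mod_cast hK1
    have hc0 : 0 ≤ μ.real C := measureReal_nonneg
    have h5 : δ / 2 ≤ ((8 * W.length + 5) * (M0 + 1)) * μ.real C := by
      refine hn2.trans (hCμ.trans ?_)
      apply mul_le_mul_of_nonneg_right _ hc0
      nlinarith
    rw [div_le_iff₀ (by positivity)]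
    nlinarith

end Pool.Agent.H31.FA
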