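import Mathlib
import Pool.Agent.H31.FA.Perturb

set_option autoImplicit false

open Equiv MeasureTheory Set Filter Topology
open FreeGroup hiding map_mul map_inv map_one

namespace Pool.Agent.H31.FA

theorem mp_of_countable {X : Type*} [MeasurableSpace X] [StandardBorelSpace X] {μ : Measure X}
    {psi : Perm X} (h1 : Measurable ⇑psi) (h2 : Measurable ⇑psi.symm)
    (φ : ℕ → Perm X) (hφ : ∀ n, φ n ∈ MP μ) (h : ∀ x, ∃ n, psi x = φ n x) : psi ∈ MP μ := by
  refine ⟨h1, h2, h1, ?_⟩
  ext E hE
  rw [Measure.map_apply h1 hE]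
  let F : ℕ → Set X := fun n => {x | psi x = φ n x}
  have hF : ∀ n, MeasurableSet (F n) := fun n => measurableSet_eq_fun h1 (hφ n).1
  have hFU : ⋃ n, F n = univ := by
    ext x
    simp only [mem_iUnion, mem_univ, iff_true]
    exact h x
  set D := disjointed F with hD
  have hDm : ∀ n, MeasurableSet (D n) := fun n => MeasurableSet.disjointed hF n
  have hDU : ⋃ n, D n = univ := by rw [hD, iUnion_disjointed, hFU]
  have hDd : Pairwise (Function.onFun Disjoint D) := disjoint_disjointed F
  have hDF : ∀ n, D n ⊆ F n := fun n => disjointed_subset F n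
  have e1 : psi ⁻¹' E = ⋃ n, (psi ⁻¹' E ∩ D n) := by
    rw [← inter_iUnion, hDU, inter_univ]
  have e2 : E = ⋃ n, (E ∩ psi.symm ⁻¹' (D n)) := by
    rw [← inter_iUnion, ← preimage_iUnion, hDU, preimage_univ, inter_univ]
  rw [e1]
  conv_rhs => rw [e2]
  rw [measure_iUnion, measure_iUnion]
  · congr 1
    ext n
    rw [← measure_preimage_MP (hφ n) (E ∩ psi.symm ⁻¹' (D n))]
    congr 1
    ext x
    simp only [mem_inter_iff, mem_preimage]
    constructor
    · rintro ⟨hx1, hx2⟩
      have h3 : psi x = φ n x := hDF n hx2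
      rw [← h3]
      refine ⟨hx1, ?_⟩
      simpa using hx2
    · rintro ⟨hx1, hx2⟩
      have h3 : psi (psi.symm (φ n x)) = φ n (psi.symm (φ n x)) := hDF n hx2
      rw [Equiv.apply_symm_apply] at h3
      have h4 : x = psi.symm (φ n x) := (φ n).injective h3
      have h5 : psi x = φ n x := by
        conv_lhs => rw [h4]
        rw [Equiv.apply_symm_apply]
      rw [← h4] at hx2
      rw [h5]
      exact ⟨hx1, hx2⟩
  · intro m n hmn
    have := hDd hmn
    exact (Disjoint.preimage _ this).mono inter_subset_right inter_subset_right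
  · intro n
    exact hE.inter (h2 (hDm n))
  · intro m n hmn
    have := hDd hmn
    exact this.mono inter_subset_right inter_subset_right
  · intro n
    exact (h1 hE).inter (hDm n)

/-- The measurable full group of `S`. -/
structure FGr {X : Type*} [MeasurableSpace X] (μ : Measure X) (S : Perm X) where
  toPerm : Perm X
  meas : Measurable ⇑toPerm
  meas_symm : Measurable ⇑toPerm.symm
  full : ∀ x, ∃ n : ℤ, toPerm x = (S ^ n) x

variable {X : Type*} [MeasurableSpace X] [StandardBorelSpace X] {μ : Measure X}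
  [IsProbabilityMeasure μ] {S : Perm X}

theorem FGr.mem_MP (psi : FGr μ S) (hS : S ∈ MP μ) : psi.toPerm ∈ MP μ := by
  obtain ⟨e, he⟩ := exists_surjective_nat ℤ
  refine mp_of_countable psi.meas psi.meas_symm (fun n => S ^ (e n))
    (fun n => (MP μ).zpow_mem hS _) (fun x => ?_)
  obtain ⟨n, hn⟩ := psi.full x
  obtain ⟨m, rfl⟩ := he n
  exact ⟨m, hn⟩

noncomputable instance : PseudoMetricSpace (FGr μ S) where
  dist psi phi := μ.real {x | psi.toPerm x ≠ phi.toPerm x}
  dist_self psi := by simp
  dist_comm psi phi := by simp only [ne_comm]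
  dist_triangle psi phi rho := by
    refine le_trans (measureReal_mono ?_) (measureReal_union_le _ _)
    intro x hx
    by_contra h
    simp only [mem_union, mem_ofPred_eq, not_or, not_not] at h
    exact hx (h.1.trans h.2)

theorem dist_def (psi phi : FGr μ S) : dist psi phi = μ.real {x | psi.toPerm x ≠ phi.toPerm x} := rfl

theorem dist_inv_eq (hS : S ∈ MP μ) (psi phi : FGr μ S) :
    μ.real {x | psi.toPerm⁻¹ x ≠ phi.toPerm⁻¹ x} = dist psi phi := by
  rw [← measureReal_preimage_MP (psi.mem_MP hS), dist_def]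
  congr 1
  ext x
  simp only [mem_preimage, mem_ofPred_eq, ← Perm.mul_apply]
  rw [inv_mul_cancel, Perm.one_apply, Perm.mul_apply, ne_eq, ne_eq, Perm.eq_inv_iff_eq]
  rw [eq_comm]

instance : Nonempty (FGr μ S) :=
  ⟨⟨1, measurable_id, measurable_id, fun x => ⟨0, by simp⟩⟩⟩

end Pool.Agent.H31.FA
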