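import Mathlib
import Pool.Agent.H31.FA.Space

set_option autoImplicit false

open Equiv MeasureTheory Set Filter Topology

namespace Pool.Agent.H31.FA

variable {X : Type*} [MeasurableSpace X] [StandardBorelSpace X] {μ : Measure X}
  [IsProbabilityMeasure μ] {S : Perm X}

theorem complete_FGr (hS : S ∈ MP μ) : CompleteSpace (FGr μ S) := by
  refine Metric.complete_of_convergent_controlled_sequences (fun n => (1 / 2) ^ n) (by simp) ?_
  intro u hu
  have hmp : ∀ n, (u n).toPerm ∈ MP μ := fun n => (u n).mem_MP hS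
  -- bad sets
  let E1 : ℕ → Set X := fun n => {x | (u n).toPerm x ≠ (u (n+1)).toPerm x}
  let E2 : ℕ → Set X := fun n => {x | (u n).toPerm⁻¹ x ≠ (u (n+1)).toPerm⁻¹ x}
  have hE1m : ∀ n, MeasurableSet (E1 n) := fun n =>
    (measurableSet_eq_fun (u n).meas (u (n+1)).meas).compl
  have hE2m : ∀ n, MeasurableSet (E2 n) := fun n =>
    (measurableSet_eq_fun (u n).meas_symm (u (n+1)).meas_symm).compl
  have hd : ∀ n, dist (u n) (u (n+1)) < (1/2)^n := fun n => hu n n (n+1) le_rfl (by omega)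
  have hE1 : ∀ n, μ (E1 n) ≤ ENNReal.ofReal ((1/2)^n) := by
    intro n
    rw [← ENNReal.ofReal_toReal (measure_ne_top μ (E1 n))]
    exact ENNReal.ofReal_le_ofReal (hd n).le
  have hE2 : ∀ n, μ (E2 n) ≤ ENNReal.ofReal ((1/2)^n) := by
    intro n
    rw [← ENNReal.ofReal_toReal (measure_ne_top μ (E2 n))]
    apply ENNReal.ofReal_le_ofReal
    change μ.real (E2 n) ≤ _
    rw [show μ.real (E2 n) = dist (u n) (u (n+1)) from dist_inv_eq hS _ _]
    exact (hd n).le
  have hsummable : (∑' n : ℕ, ENNReal.ofReal ((1/2)^n)) ≠ ⊤ := by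
    rw [← ENNReal.ofReal_tsum_of_nonneg (fun n => by positivity) summable_geometric_two]
    exact ENNReal.ofReal_ne_top
  have hb1 : ∀ᵐ x ∂μ, ∀ᶠ n in atTop, x ∉ E1 n :=
    ae_eventually_notMem (ne_top_of_le_ne_top hsummable (ENNReal.tsum_le_tsum hE1))
  have hb2 : ∀ᵐ x ∂μ, ∀ᶠ n in atTop, x ∉ E2 n :=
    ae_eventually_notMem (ne_top_of_le_ne_top hsummable (ENNReal.tsum_le_tsum hE2))
  -- good sets
  let G : ℕ → Set X := fun N => {x | ∀ n, N ≤ n → x ∉ E1 n ∧ x ∉ E2 n}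
  have hGm : ∀ N, MeasurableSet (G N) := by
    intro N
    have : G N = ⋂ n, ⋂ (_ : N ≤ n), ((E1 n)ᶜ ∩ (E2 n)ᶜ) := by
      ext x; simp [G]
    rw [this]
    exact MeasurableSet.iInter fun n => MeasurableSet.iInter fun _ =>
      (hE1m n).compl.inter (hE2m n).compl
  have hGmono : Monotone G := by
    intro N M hNM x hx n hn
    exact hx n (hNM.trans hn)
  have hG1 : ∀ N x, x ∈ G N → ∀ n, N ≤ n → (u n).toPerm x = (u N).toPerm x := by
    intro N x hx n hn
    induction n, hn using Nat.le_induction with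
    | base => rfl
    | succ n hn ih =>
      have := (hx n hn).1
      simp only [E1, mem_ofPred_eq, not_not] at this
      rw [← this, ih]
  have hG2 : ∀ N x, x ∈ G N → ∀ n, N ≤ n → (u n).toPerm⁻¹ x = (u N).toPerm⁻¹ x := by
    intro N x hx n hn
    induction n, hn using Nat.le_induction with
    | base => rfl
    | succ n hn ih =>
      have := (hx n hn).2
      simp only [E2, mem_ofPred_eq, not_not] at this
      rw [← this, ih]
  have hGae : ∀ᵐ x ∂μ, x ∈ ⋃ N, G N := by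
    filter_upwards [hb1, hb2] with x h1 h2
    obtain ⟨N, hN⟩ := eventually_atTop.mp (h1.and h2)
    exact mem_iUnion.mpr ⟨N, hN⟩
  let G0 : Set X := ⋂ k : ℤ, ⇑(S ^ k) ⁻¹' (⋃ N, G N)
  have hG0m : MeasurableSet G0 := MeasurableSet.iInter fun k =>
    ((MP μ).zpow_mem hS k).1 (MeasurableSet.iUnion hGm)
  have hG0ae : ∀ᵐ x ∂μ, x ∈ G0 := by
    simp only [G0, mem_iInter]
    rw [ae_all_iff]
    intro k
    exact ((MP μ).zpow_mem hS k).2.2.quasiMeasurePreserving.ae hGae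
  have hG0inv : ∀ x, x ∈ G0 → ∀ k : ℤ, (S ^ k) x ∈ G0 := by
    intro x hx k
    simp only [G0, mem_iInter, mem_preimage] at hx ⊢
    intro l
    rw [← Perm.mul_apply, ← zpow_add]
    exact hx _
  have hG0G : ∀ x, x ∈ G0 → ∃ N, x ∈ G N := by
    intro x hx
    have := mem_iInter.mp hx 0
    simpa using this
  -- the limit
  classical
  let f : X → X := fun x => if h : ∃ N, x ∈ G0 ∩ G N then (u (Nat.find h)).toPerm x else x
  let g : X → X := fun x => if h : ∃ N, x ∈ G0 ∩ G N then (u (Nat.find h)).toPerm⁻¹ x else x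
  have hf : ∀ N x, x ∈ G0 → x ∈ G N → f x = (u N).toPerm x := by
    intro N x hx0 hx
    have h : ∃ N, x ∈ G0 ∩ G N := ⟨N, hx0, hx⟩
    simp only [f, dif_pos h]
    rw [← hG1 _ x (Nat.find_spec h).2 N (Nat.find_min' h ⟨hx0, hx⟩)]
  have hg : ∀ N x, x ∈ G0 → x ∈ G N → g x = (u N).toPerm⁻¹ x := by
    intro N x hx0 hx
    have h : ∃ N, x ∈ G0 ∩ G N := ⟨N, hx0, hx⟩
    simp only [g, dif_pos h]
    rw [← hG2 _ x (Nat.find_spec h).2 N (Nat.find_min' h ⟨hx0, hx⟩)]
  have hf0 : ∀ x, x ∉ G0 → f x = x := by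
    intro x hx
    have h : ¬ ∃ N, x ∈ G0 ∩ G N := fun ⟨N, h1, _⟩ => hx h1
    simp only [f, dif_neg h]
  have hg0 : ∀ x, x ∉ G0 → g x = x := by
    intro x hx
    have h : ¬ ∃ N, x ∈ G0 ∩ G N := fun ⟨N, h1, _⟩ => hx h1
    simp only [g, dif_neg h]
  have hinvfull : ∀ n x, ∃ k : ℤ, (u n).toPerm⁻¹ x = (S ^ k) x := by
    intro n x
    obtain ⟨k, hk⟩ := (u n).full ((u n).toPerm⁻¹ x)
    refine ⟨-k, ?_⟩
    rw [← Perm.mul_apply, mul_inv_cancel, Perm.one_apply] at hk
    conv_rhs => rw [hk]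
    rw [← Perm.mul_apply, ← zpow_add]
    simp
  have hfG0 : ∀ x, x ∈ G0 → f x ∈ G0 := by
    intro x hx
    obtain ⟨N, hN⟩ := hG0G x hx
    rw [hf N x hx hN]
    obtain ⟨k, hk⟩ := (u N).full x
    rw [hk]
    exact hG0inv x hx k
  have hgG0 : ∀ x, x ∈ G0 → g x ∈ G0 := by
    intro x hx
    obtain ⟨N, hN⟩ := hG0G x hx
    rw [hg N x hx hN]
    obtain ⟨k, hk⟩ := hinvfull N x
    rw [hk]
    exact hG0inv x hx k
  have hgf : ∀ x, g (f x) = x := by
    intro x
    by_cases hx : x ∈ G0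
    · obtain ⟨N, hN⟩ := hG0G x hx
      obtain ⟨M, hM⟩ := hG0G (f x) (hfG0 x hx)
      have h1 := hf (max N M) x hx (hGmono (le_max_left _ _) hN)
      have h2 := hg (max N M) (f x) (hfG0 x hx) (hGmono (le_max_right _ _) hM)
      rw [h2, h1, ← Perm.mul_apply, inv_mul_cancel, Perm.one_apply]
    · rw [hf0 x hx, hg0 x hx]
  have hfg : ∀ x, f (g x) = x := by
    intro x
    by_cases hx : x ∈ G0
    · obtain ⟨N, hN⟩ := hG0G x hx
      obtain ⟨M, hM⟩ := hG0G (g x) (hgG0 x hx)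
      have h1 := hg (max N M) x hx (hGmono (le_max_left _ _) hN)
      have h2 := hf (max N M) (g x) (hgG0 x hx) (hGmono (le_max_right _ _) hM)
      rw [h2, h1, ← Perm.mul_apply, mul_inv_cancel, Perm.one_apply]
    · rw [hg0 x hx, hf0 x hx]
  have hmeas : ∀ (F : X → X) (v : ℕ → X → X), (∀ n, Measurable (v n)) →
      (∀ N x, x ∈ G0 → x ∈ G N → F x = v N x) → (∀ x, x ∉ G0 → F x = x) → Measurable F := by
    intro F v hv h1 h2 s hs
    have : F ⁻¹' s = (⋃ N, (G0 ∩ G N) ∩ (v N) ⁻¹' s) ∪ (G0ᶜ ∩ s) := by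
      ext x
      simp only [mem_preimage, mem_union, mem_iUnion, mem_inter_iff, mem_compl_iff]
      by_cases hx : x ∈ G0
      · obtain ⟨N, hN⟩ := hG0G x hx
        constructor
        · intro h3
          exact Or.inl ⟨N, ⟨hx, hN⟩, by rw [← h1 N x hx hN]; exact h3⟩
        · rintro (⟨M, ⟨h3, h4⟩, h5⟩ | ⟨h3, _⟩)
          · rw [h1 M x hx h4]; exact h5
          · exact absurd hx h3
      · rw [h2 x hx]
        constructor
        · intro h3
          exact Or.inr ⟨hx, h3⟩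
        · rintro (⟨M, ⟨h3, h4⟩, h5⟩ | ⟨_, h3⟩)
          · exact absurd h3 hx
          · exact h3
    rw [this]
    exact (MeasurableSet.iUnion fun N => (hG0m.inter (hGm N)).inter (hv N hs)).union
      (hG0m.compl.inter hs)
  let psi : FGr μ S :=
    { toPerm := ⟨f, g, hgf, hfg⟩
      meas := hmeas f (fun n => ⇑((u n).toPerm)) (fun n => (u n).meas) hf hf0
      meas_symm := hmeas g (fun n => ⇑((u n).toPerm⁻¹)) (fun n => (u n).meas_symm) hg hg0
      full := by
        intro x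
        by_cases hx : x ∈ G0
        · obtain ⟨N, hN⟩ := hG0G x hx
          obtain ⟨k, hk⟩ := (u N).full x
          exact ⟨k, by rw [← hk]; exact hf N x hx hN⟩
        · exact ⟨0, by simpa using hf0 x hx⟩ }
  refine ⟨psi, ?_⟩
  rw [tendsto_iff_dist_tendsto_zero]
  have hsub : ∀ n, {x | (u n).toPerm x ≠ psi.toPerm x} ⊆ (G0 ∩ G n)ᶜ := by
    intro n x hx hx'
    apply hx
    exact (hf n x hx'.1 hx'.2).symm
  have hanti : Antitone (fun n => (G0 ∩ G n)ᶜ) := by
    intro m n hmn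
    exact compl_subset_compl.mpr (inter_subset_inter_right _ (hGmono hmn))
  have hlim : Tendsto (fun n => μ ((G0 ∩ G n)ᶜ)) atTop (𝓝 0) := by
    have h1 := tendsto_measure_iInter_atTop (μ := μ) (s := fun n => (G0 ∩ G n)ᶜ)
      (fun n => (hG0m.inter (hGm n)).compl.nullMeasurableSet) hanti ⟨0, measure_ne_top _ _⟩
    have h2 : μ (⋂ n, (G0 ∩ G n)ᶜ) = 0 := by
      apply measure_mono_null _ (ae_iff.mp hG0ae)
      intro x hx hx'
      obtain ⟨N, hN⟩ := hG0G x hx'
      exact mem_iInter.mp hx N ⟨hx', hN⟩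
    rw [h2] at h1
    exact h1
  have hlim' : Tendsto (fun n => μ.real ((G0 ∩ G n)ᶜ)) atTop (𝓝 0) := by
    have := (ENNReal.tendsto_toReal ENNReal.zero_ne_top).comp hlim
    exact this
  exact squeeze_zero (fun n => dist_nonneg) (fun n => measureReal_mono (hsub n)) hlim'

end Pool.Agent.H31.FA
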