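import Mathlib
import Pool.Agent.H31.FA.Complete

set_option autoImplicit false

open Equiv MeasureTheory Set Filter Topology
open FreeGroup hiding map_mul map_inv map_one

namespace Pool.Agent.H31.FA

variable {X : Type*} [MeasurableSpace X] [StandardBorelSpace X] {μ : Measure X}
  [IsProbabilityMeasure μ]

/-- The slid pair of generators. -/
def slide (a : Fin 2 → Perm X) (j : Fin 2) (psi : Perm X) : Fin 2 → Perm X :=
  Function.update a j (a j * psi)

theorem slide_mem_MP {a : Fin 2 → Perm X} (ha : ∀ i, a i ∈ MP μ) {psi : Perm X} (hψ : psi ∈ MP μ)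
    (j : Fin 2) (k : Fin 2) : slide a j psi k ∈ MP μ := by
  unfold slide
  by_cases hk : k = j
  · subst hk; rw [Function.update_self]; exact (MP μ).mul_mem (ha k) hψ
  · rw [Function.update_of_ne hk]; exact ha k

theorem measure_wd_ne_le {i j : Fin 2} {a : Fin 2 → Perm X} (ha : ∀ i, a i ∈ MP μ)
    (psi phi : FGr μ (a i)) (L : List (Fin 2 × Bool)) :
    μ.real {x | wd (slide a j psi.toPerm) L x ≠ wd (slide a j phi.toPerm) L x} ≤
      L.length * dist psi phi := by
  have hφ : ∀ k, slide a j phi.toPerm k ∈ MP μ := slide_mem_MP ha (phi.mem_MP (ha i)) j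
  induction L with
  | nil => simp [wd_nil]
  | cons l L ih =>
    obtain ⟨c, e⟩ := l
    set lψ : Perm X := cond e (slide a j psi.toPerm c) (slide a j psi.toPerm c)⁻¹ with hlψ
    set lφ : Perm X := cond e (slide a j phi.toPerm c) (slide a j phi.toPerm c)⁻¹ with hlφ
    have h1 : {x | wd (slide a j psi.toPerm) ((c, e) :: L) x ≠ wd (slide a j phi.toPerm) ((c, e) :: L) x}
        ⊆ {x | wd (slide a j psi.toPerm) L x ≠ wd (slide a j phi.toPerm) L x} ∪
          (wd (slide a j phi.toPerm) L) ⁻¹' {y | lψ y ≠ lφ y} := by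
      intro x hx
      by_contra h
      simp only [mem_union, mem_ofPred_eq, mem_preimage, not_or, not_not] at h
      apply hx
      rw [wd_cons, wd_cons, Perm.mul_apply, Perm.mul_apply, h.1]
      exact h.2
    have h2 : μ.real {y | lψ y ≠ lφ y} ≤ dist psi phi := by
      by_cases hc : c = j
      · subst hc
        cases e with
        | true =>
          have : {y | lψ y ≠ lφ y} = {y | psi.toPerm y ≠ phi.toPerm y} := by
            ext y
            simp [hlψ, hlφ, slide]
          rw [this, dist_def]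
        | false =>
          have : {y | lψ y ≠ lφ y} = ⇑((a c)⁻¹) ⁻¹' {y | psi.toPerm⁻¹ y ≠ phi.toPerm⁻¹ y} := by
            ext y
            simp [hlψ, hlφ, slide]
          rw [this, measureReal_preimage_MP ((MP μ).inv_mem (ha c)), dist_inv_eq (ha i)]
      · have : {y | lψ y ≠ lφ y} = ∅ := by
          ext y
          simp [hlψ, hlφ, slide, Function.update_of_ne hc]
        rw [this]
        simp
    have h3 : wd (slide a j phi.toPerm) L ∈ MP μ := lift_mem_MP hφ _
    calc _ ≤ μ.real {x | wd (slide a j psi.toPerm) L x ≠ wd (slide a j phi.toPerm) L x} +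
          μ.real ((wd (slide a j phi.toPerm) L) ⁻¹' {y | lψ y ≠ lφ y}) :=
          (measureReal_mono h1).trans (measureReal_union_le _ _)
      _ ≤ L.length * dist psi phi + dist psi phi := by
          rw [measureReal_preimage_MP h3]
          gcongr
      _ = ((c, e) :: L).length * dist psi phi := by
          rw [List.length_cons]; push_cast; ring

theorem continuous_disc {i j : Fin 2} {a : Fin 2 → Perm X} (ha : ∀ i, a i ∈ MP μ)
    (W : List (Fin 2 × Bool)) (m : ℕ) (A : Set X) :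
    Continuous (fun psi : FGr μ (a i) =>
      μ.real (symmDiff A (⇑((wd (slide a j psi.toPerm) W) ^ m) ⁻¹' A))) := by
  have h : LipschitzWith (((fwd W m).length : ℕ) : NNReal) (fun psi : FGr μ (a i) =>
      μ.real (symmDiff A (⇑((wd (slide a j psi.toPerm) W) ^ m) ⁻¹' A))) := by
    apply LipschitzWith.of_le_add_mul
    intro psi phi
    have h1 := real_symmDiff_triangle (μ := μ) A (⇑((wd (slide a j phi.toPerm) W) ^ m) ⁻¹' A)
      (⇑((wd (slide a j psi.toPerm) W) ^ m) ⁻¹' A)
    have h2 : μ.real (symmDiff (⇑((wd (slide a j phi.toPerm) W) ^ m) ⁻¹' A)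
        (⇑((wd (slide a j psi.toPerm) W) ^ m) ⁻¹' A)) ≤ (fwd W m).length * dist psi phi := by
      refine le_trans (measureReal_mono ?_) (measure_wd_ne_le (j := j) ha psi phi (fwd W m))
      intro x hx hx'
      rw [wd_fwd, wd_fwd] at hx'
      rw [Set.mem_symmDiff, mem_preimage, mem_preimage, hx'] at hx
      rcases hx with ⟨h3, h4⟩ | ⟨h3, h4⟩ <;> exact h4 h3
    refine h1.trans ?_
    simp only [NNReal.coe_natCast]
    gcongr
  exact h.continuous

theorem exists_generic_point {Y : Type*} [TopologicalSpace Y] [BaireSpace Y] [Nonempty Y]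
    {ι : Type*} [Countable ι] (U : ι → Set Y) (hU : ∀ t, IsOpen (U t)) :
    ∃ y, ∀ t, y ∈ U t ∨ y ∈ (closure (U t))ᶜ := by
  have h1 : Dense (⋂ t, (U t ∪ (closure (U t))ᶜ)) := by
    apply dense_iInter_of_isOpen
    · intro t
      exact (hU t).union isClosed_closure.isOpen_compl
    · intro t
      rw [dense_iff_closure_eq, closure_union]
      apply eq_univ_of_forall
      intro y
      by_cases hy : y ∈ closure (U t)
      · exact Or.inl hy
      · exact Or.inr (subset_closure hy)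
  obtain ⟨y, hy⟩ := h1.nonempty
  exact ⟨y, fun t => mem_iInter.mp hy t⟩

theorem free_slide {i j : Fin 2} (hij : i ≠ j) {a : Fin 2 → Perm X}
    (hfree : ∀ g : FreeGroup (Fin 2), g ≠ 1 → μ {x | (FreeGroup.lift a g) x = x} = 0)
    {psi : Perm X} (hψ : ∀ x, ∃ n : ℤ, psi x = (a i ^ n) x) :
    ∀ g : FreeGroup (Fin 2), g ≠ 1 → μ {x | (FreeGroup.lift (slide a j psi) g) x = x} = 0 := by
  intro g hg
  have : Countable (FreeGroup (Fin 2)) := by
    have h : Function.Surjective (FreeGroup.mk : List (Fin 2 × Bool) → FreeGroup (Fin 2)) :=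
      Quot.mk_surjective
    exact h.countable
  have h1 : ∀ᵐ x ∂μ, ∀ h : FreeGroup (Fin 2), h ≠ 1 → FreeGroup.lift a h x ≠ x := by
    rw [ae_all_iff]
    intro h
    by_cases hh : h = 1
    · filter_upwards with x hx
      exact absurd hh hx
    · have := hfree h hh
      rw [ae_iff]
      have he : {x | ¬ (h ≠ 1 → FreeGroup.lift a h x ≠ x)} = {x | FreeGroup.lift a h x = x} := by
        ext x
        simp [hh]
      rw [he]
      exact this
  have h2 : ∀ᵐ x ∂μ, FreeGroup.lift (slide a j psi) g x ≠ x := by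
    filter_upwards [h1] with x hx
    exact free_of_slide hij hψ (by simp [slide, Function.update_of_ne hij]) (by simp [slide]) x hx g hg
  rw [ae_iff] at h2
  simpa using h2

theorem exists_strict_invariant {g : Perm X} (hg : g ∈ MP μ) {A : Set X} (hA : MeasurableSet A)
    (h : g ⁻¹' A =ᵐ[μ] A) :
    ∃ A', MeasurableSet A' ∧ A' =ᵐ[μ] A ∧ ∀ x, g x ∈ A' ↔ x ∈ A' := by
  obtain ⟨t, h1, h2, h3⟩ := hg.2.2.quasiMeasurePreserving.exists_preimage_eq_of_preimage_ae
    hA.nullMeasurableSet h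
  exact ⟨t, h1, h2, fun x => by rw [← mem_preimage, h3]⟩

theorem prop_P {i j : Fin 2} (hij : i ≠ j) {a : Fin 2 → Perm X} (ha : ∀ i, a i ∈ MP μ)
    (hfree : ∀ g : FreeGroup (Fin 2), g ≠ 1 → μ {x | (FreeGroup.lift a g) x = x} = 0) :
    ∃ psi : Perm X, psi ∈ MP μ ∧ (∀ x, ∃ n : ℤ, psi x = (a i ^ n) x) ∧
      ∀ W : List (Fin 2 × Bool), IsCyclicallyReduced W → W.getLast? = some (j, true) →
        ∀ A : Set X, MeasurableSet A → (wd (slide a j psi) W) ⁻¹' A =ᵐ[μ] A →
          (a i) ⁻¹' A =ᵐ[μ] A := by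
  obtain ⟨𝒜, h𝒜c, h𝒜⟩ := exists_countable_measureDense μ
  have := h𝒜c.to_subtype
  have hcomplete : CompleteSpace (FGr μ (a i)) := complete_FGr (ha i)
  let F : List (Fin 2 × Bool) → ℕ → Set X → FGr μ (a i) → ℝ := fun W m A psi =>
    μ.real (symmDiff A (⇑((wd (slide a j psi.toPerm) W) ^ m) ⁻¹' A))
  have hF : ∀ W m A, Continuous (F W m A) := fun W m A => continuous_disc ha W m A
  let U : List (Fin 2 × Bool) × 𝒜 × ℚ → Set (FGr μ (a i)) := fun t =>
    ⋃ m : ℕ, {psi | (t.2.2 : ℝ) < F t.1 m t.2.1 psi}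
  obtain ⟨psi, hpsi⟩ := exists_generic_point U (fun t => isOpen_iUnion fun m =>
    isOpen_lt continuous_const (hF _ _ _))
  have hψMP := psi.mem_MP (ha i)
  refine ⟨psi.toPerm, hψMP, psi.full, ?_⟩
  intro W hW hlast A hA hinv
  set a0 := slide a j psi.toPerm with ha0
  have ha0MP : ∀ k, a0 k ∈ MP μ := slide_mem_MP ha hψMP j
  have ha0i : a0 i = a i := by simp [ha0, slide, Function.update_of_ne hij]
  have hgMP : wd a0 W ∈ MP μ := lift_mem_MP ha0MP _
  obtain ⟨A', hA'm, hA'e, hA'inv⟩ := exists_strict_invariant hgMP hA hinv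
  have hSq := (ha i).2.2.quasiMeasurePreserving
  suffices h : (a i) ⁻¹' A' =ᵐ[μ] A' from (hSq.preimage_ae_eq hA'e.symm).trans (h.trans hA'e)
  by_contra hne
  set δ := μ.real (symmDiff A' (a0 i ⁻¹' A')) with hδ
  have hδpos : 0 < δ := by
    rcases measureReal_nonneg.eq_or_lt' (a := μ.real (symmDiff A' (a0 i ⁻¹' A'))) with h | h
    · exfalso
      apply hne
      rw [measureReal_eq_zero_iff] at h
      rw [ha0i] at h
      exact (measure_symmDiff_eq_zero_iff.mp h).symm
    · exact h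
  set c := δ / (2 * (8 * W.length + 5)) with hc
  have hcpos : 0 < c := by positivity
  obtain ⟨Ak, hAk, hAk2⟩ := h𝒜.approx A' hA'm (measure_ne_top _ _) (c/8) (by positivity)
  have hAk3 : μ.real (symmDiff A' Ak) ≤ c/8 := by
    rw [measureReal_def]
    exact ENNReal.toReal_le_of_le_ofReal (by positivity) hAk2.le
  obtain ⟨q, hq1, hq2⟩ := exists_rat_btwn (show c/4 < c/2 by linarith)
  have key : ∀ f ∈ MP μ, |μ.real (symmDiff Ak (f ⁻¹' Ak)) - μ.real (symmDiff A' (f ⁻¹' A'))| ≤ c/4 := by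
    intro f hf
    have h1 : μ.real (symmDiff (f ⁻¹' A') (f ⁻¹' Ak)) ≤ c/8 := by
      rw [← preimage_symmDiff, measureReal_preimage_MP hf]
      exact hAk3
    have h2 := real_symmDiff_triangle (μ := μ) Ak A' (f ⁻¹' Ak)
    have h3 := real_symmDiff_triangle (μ := μ) A' (f ⁻¹' A') (f ⁻¹' Ak)
    have h4 := real_symmDiff_triangle (μ := μ) A' Ak (f ⁻¹' A')
    have h5 := real_symmDiff_triangle (μ := μ) Ak (f ⁻¹' Ak) (f ⁻¹' A')
    rw [symmDiff_comm Ak A'] at h2
    rw [symmDiff_comm (f ⁻¹' Ak) (f ⁻¹' A')] at h5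
    rw [abs_le]
    constructor <;> linarith
  have hnot : psi ∉ U (W, ⟨Ak, hAk⟩, q) := by
    intro h
    obtain ⟨m, hm⟩ := mem_iUnion.mp h
    have h1 : (q : ℝ) < μ.real (symmDiff Ak (⇑((wd a0 W) ^ m) ⁻¹' Ak)) := hm
    have h2 := key _ ((MP μ).pow_mem hgMP m)
    have h3 : ⇑((wd a0 W) ^ m) ⁻¹' A' = A' := by
      ext x; exact zpow_mem_iff hA'inv m x
    rw [h3, symmDiff_self] at h2
    simp only [bot_eq_empty, measureReal_empty, sub_zero] at h2
    have h4 := (abs_le.mp h2).2
    linarith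
  have hcl := (hpsi (W, ⟨Ak, hAk⟩, q)).resolve_left hnot
  obtain ⟨ε, hε, hball⟩ := Metric.isOpen_iff.mp isClosed_closure.isOpen_compl psi hcl
  obtain ⟨M0, hM0⟩ := exists_nat_gt (2 / ε)
  have hfree0 := free_slide (μ := μ) hij hfree psi.full (j := j)
  obtain ⟨chi, hc1, hc2, hc3, hc4, hc5⟩ := perturb (i := i) ha0MP hfree0 hW hlast hA'm hA'inv
    (le_refl δ) M0
  rw [ha0i] at hc3
  let psi1 : FGr μ (a i) :=
    { toPerm := psi.toPerm * chi
      meas := psi.meas.comp hc1
      meas_symm := hc2.comp psi.meas_symm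
      full := by
        intro x
        obtain ⟨k, hk⟩ := hc3 x
        obtain ⟨l, hl⟩ := psi.full (chi x)
        refine ⟨l + k, ?_⟩
        rw [Perm.mul_apply, hl, hk, zpow_add, Perm.mul_apply] }
  have hdist : dist psi1 psi < ε := by
    rw [dist_comm, dist_def]
    have h1 : {x | psi.toPerm x ≠ psi1.toPerm x} = {x | chi x ≠ x} := by
      ext x
      simp only [mem_ofPred_eq, psi1, Perm.mul_apply]
      rw [ne_eq, psi.toPerm.injective.eq_iff, ne_eq, eq_comm]
    rw [h1]
    refine lt_of_le_of_lt hc4 ?_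
    rw [div_lt_iff₀ (by positivity)]
    rw [div_lt_iff₀ hε] at hM0
    nlinarith
  have hin : psi1 ∈ U (W, ⟨Ak, hAk⟩, q) := by
    refine mem_iUnion.mpr ⟨M0 + 2, ?_⟩
    have h0 : slide a j psi1.toPerm = Function.update a0 j (a0 j * chi) := by
      simp [psi1, ha0, slide, mul_assoc]
    have h1 : ∀ k, slide a j psi1.toPerm k ∈ MP μ := slide_mem_MP ha (psi1.mem_MP (ha i)) j
    have h2 : wd (slide a j psi1.toPerm) W ∈ MP μ := lift_mem_MP h1 _
    have h3 := key _ ((MP μ).pow_mem h2 (M0+2))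
    rw [← h0] at hc5
    change (q : ℝ) < μ.real (symmDiff Ak (⇑((wd (slide a j psi1.toPerm) W) ^ (M0+2)) ⁻¹' Ak))
    have h4 := (abs_le.mp h3).1
    linarith
  exact hball (Metric.mem_ball.mpr hdist) (subset_closure hin)

end Pool.Agent.H31.FA
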