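import Mathlib
import Pool.Agent.H31.FA.Generic

set_option autoImplicit false

open Equiv MeasureTheory Set Filter Topology
open FreeGroup hiding map_mul map_inv map_one

namespace Pool.Agent.H31.FA

/-- Triviality of almost invariant sets. -/
def EA {X : Type*} [MeasurableSpace X] (μ : Measure X) (f : Perm X) : Prop :=
  ∀ A : Set X, MeasurableSet A → f ⁻¹' A =ᵐ[μ] A → μ A = 0 ∨ μ Aᶜ = 0

section basic
variable {X : Type*} [MeasurableSpace X] {μ : Measure X}

theorem preimage_ae {f : Perm X} (hf : f ∈ MP μ) {A B : Set X} (h : A =ᵐ[μ] B) :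
    f ⁻¹' A =ᵐ[μ] f ⁻¹' B := hf.2.2.quasiMeasurePreserving.preimage_ae_eq h

theorem EA_conj {f h : Perm X} (hh : h ∈ MP μ) (hf : EA μ f) : EA μ (h * f * h⁻¹) := by
  intro A hA hinv
  have h1 := preimage_ae hh hinv
  have h2 : h ⁻¹' ((h * f * h⁻¹) ⁻¹' A) = f ⁻¹' (h ⁻¹' A) := by
    ext x
    simp [Perm.mul_apply]
  rw [h2] at h1
  have h3 := hf (h ⁻¹' A) (hh.1 hA) h1
  rw [← preimage_compl, measure_preimage_MP hh, measure_preimage_MP hh] at h3
  exact h3

theorem EA_inv {f : Perm X} (hfm : f ∈ MP μ) (hf : EA μ f) : EA μ f⁻¹ := by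
  intro A hA hinv
  apply hf A hA
  have h1 := preimage_ae hfm hinv
  have h2 : f ⁻¹' (⇑f⁻¹ ⁻¹' A) = A := by
    ext x
    simp
  rw [h2] at h1
  exact h1.symm

theorem ergodic_of_EA {f : Perm X} (hfm : f ∈ MP μ) (hf : EA μ f) : Ergodic ⇑f μ := by
  refine ⟨hfm.2.2, ⟨fun A hA hinv => ?_⟩⟩
  rw [eventuallyConst_set']
  have hinv' : f ⁻¹' A =ᵐ[μ] A := Filter.EventuallyEq.of_eq hinv
  rcases hf A hA hinv' with h | h
  · left
    exact ae_eq_empty.mpr h
  · right
    exact ae_eq_univ.mpr h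

end basic

/-- Every nontrivial element is, up to conjugation and inversion, a power of the `i`-th generator
or given by a cyclically reduced word that ends in the `j`-th generator. -/
theorem good_conj {i j : Fin 2} (hij : i ≠ j) (g : FreeGroup (Fin 2)) (hg : g ≠ 1) :
    ∃ h v : FreeGroup (Fin 2), (g = h * v * h⁻¹ ∨ g = h * v⁻¹ * h⁻¹) ∧
      ((∃ k : ℕ, k ≠ 0 ∧ v = (of i) ^ k) ∨
        ∃ W : List (Fin 2 × Bool), IsCyclicallyReduced W ∧ W.getLast? = some (j, true) ∧ v = mk W) := by
  set V := reduceCyclically g.toWord with hV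
  have hVc : IsCyclicallyReduced V := reduceCyclically.isCyclicallyReduced isReduced_toWord
  have hgV : g = mk (reduceCyclically.conjugator g.toWord) * mk V *
      (mk (reduceCyclically.conjugator g.toWord))⁻¹ := by
    have := reduceCyclically.conj_conjugator_reduceCyclically g.toWord
    rw [inv_mk, mul_mk, mul_mk, this, mk_toWord]
  set c := (mk (reduceCyclically.conjugator g.toWord) : FreeGroup (Fin 2)) with hc
  have hV1 : (mk V : FreeGroup (Fin 2)) ≠ 1 := by
    intro h
    apply hg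
    rw [hgV, h]; group
  have rot : ∀ V : List (Fin 2 × Bool), IsCyclicallyReduced V → (j, true) ∈ V →
      ∃ (h : FreeGroup (Fin 2)) (W : List (Fin 2 × Bool)), IsCyclicallyReduced W ∧
        W.getLast? = some (j, true) ∧ mk V = h * mk W * h⁻¹ := by
    intro V hVc hmem
    obtain ⟨U, V', rfl⟩ := List.append_of_mem hmem
    have h2 := (hVc.flatten_replicate 2).isReduced
    have h3 : (List.replicate 2 (U ++ (j, true) :: V')).flatten =
        U ++ ((j, true) :: (V' ++ (U ++ [(j, true)]))) ++ V' := by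
      simp [List.replicate]
    rw [h3] at h2
    have h4 : IsReduced ((j, true) :: (V' ++ (U ++ [(j, true)]))) := List.IsChain.right_of_append (List.IsChain.left_of_append h2)
    refine ⟨(mk V')⁻¹, V' ++ (U ++ [(j, true)]), ⟨?_, ?_⟩, ?_, ?_⟩
    · exact red_suffix h4 (List.suffix_cons _ _)
    · intro x hx y hy hxy
      have hx' : x = (j, true) := by
        simpa using hx.symm
      subst hx'
      cases hT : V' ++ (U ++ [(j, true)]) with
      | nil => simp at hT
      | cons t T =>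
        rw [hT] at hy h4
        simp only [List.head?_cons, Option.mem_def, Option.some.injEq] at hy
        subst hy
        rw [isReduced_cons_cons] at h4
        exact h4.1 hxy
    · simp
    · have e1 : (mk (U ++ (j, true) :: V') : FreeGroup (Fin 2)) = mk (U ++ [(j, true)]) * mk V' := by
        rw [mul_mk]; simp
      rw [e1, ← mul_mk (L₁ := V')]
      group
  by_cases hm1 : (j, true) ∈ V
  · obtain ⟨h, W, h1, h2, h3⟩ := rot V hVc hm1
    refine ⟨c * h, mk W, Or.inl ?_, Or.inr ⟨W, h1, h2, rfl⟩⟩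
    rw [hgV, h3]; group
  · by_cases hm2 : (j, false) ∈ V
    · have hb : IsCyclicallyReduced (invRev V) := by
        refine ⟨IsReduced.of_reduce_eq (by rw [reduce_invRev, hVc.isReduced.reduce_eq]), ?_⟩
        intro x hx y hy hxy
        simp only [invRev, List.getLast?_reverse, List.head?_reverse, List.head?_map,
          List.getLast?_map, Option.mem_def, Option.map_eq_some_iff] at hx hy
        obtain ⟨x', hx', rfl⟩ := hx
        obtain ⟨y', hy', rfl⟩ := hy
        have := hVc.2 y' hy' x' hx' hxy.symm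
        simp [this]
      have hm3 : (j, true) ∈ invRev V := by
        simp only [invRev, List.mem_reverse, List.mem_map]
        exact ⟨(j, false), hm2, rfl⟩
      obtain ⟨h, W, h1, h2, h3⟩ := rot _ hb hm3
      refine ⟨c * h, mk W, Or.inr ?_, Or.inr ⟨W, h1, h2, rfl⟩⟩
      have h4 : (mk V : FreeGroup (Fin 2)) = h * (mk W)⁻¹ * h⁻¹ := by
        rw [← inv_inv (mk V), inv_mk, h3]; group
      rw [hgV, h4]; group
    · obtain ⟨k, M0, hsuf, hmk, -, hM0, -, -⟩ := block i V hVc.isReduced
      have hM0nil : M0 = [] := by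
        cases hM : M0 with
        | nil => rfl
        | cons t T =>
          exfalso
          have ht : t ∈ V := hsuf.subset (by rw [hM]; simp)
          obtain ⟨t1, t2⟩ := t
          by_cases h1 : t1 = i
          · subst h1
            apply hM0 t2
            rw [hM]; rfl
          · have h2 := fin2_ne hij h1
            subst h2
            cases t2 with
            | true => exact hm1 ht
            | false => exact hm2 ht
      rw [hM0nil, ← one_eq_mk, mul_one] at hmk
      have hk0 : k ≠ 0 := by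
        intro h
        rw [h, zpow_zero] at hmk
        exact hV1 hmk
      rcases lt_or_gt_of_ne hk0 with hk | hk
      · refine ⟨c, (of i) ^ (-k).toNat, Or.inr ?_, Or.inl ⟨(-k).toNat, by omega, rfl⟩⟩
        rw [hgV, hmk]
        congr 2
        rw [← zpow_natCast, ← zpow_neg, Int.toNat_of_nonneg (by omega), neg_neg]
      · refine ⟨c, (of i) ^ k.toNat, Or.inl ?_, Or.inl ⟨k.toNat, by omega, rfl⟩⟩
        rw [hgV, hmk]
        congr 2
        rw [← zpow_natCast, Int.toNat_of_nonneg (by omega)]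

section orbits
variable {X : Type*}

theorem range_le {a b : Fin 2 → Perm X}
    (h : ∀ k y, (∃ g : FreeGroup (Fin 2), b k y = FreeGroup.lift a g y) ∧
      ∃ g : FreeGroup (Fin 2), (b k)⁻¹ y = FreeGroup.lift a g y) (g : FreeGroup (Fin 2)) :
    ∀ y, ∃ g' : FreeGroup (Fin 2), FreeGroup.lift b g y = FreeGroup.lift a g' y := by
  induction g using FreeGroup.induction_on with
  | C1 => intro y; exact ⟨1, by simp⟩
  | of k =>
    intro y
    obtain ⟨g, hg⟩ := (h k y).1
    exact ⟨g, by rw [lift_apply_of, hg]⟩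
  | inv_of k _ =>
    intro y
    obtain ⟨g, hg⟩ := (h k y).2
    exact ⟨g, by rw [_root_.map_inv, lift_apply_of, hg]⟩
  | mul x y hx hy =>
    intro z
    obtain ⟨g1, hg1⟩ := hy z
    obtain ⟨g2, hg2⟩ := hx (FreeGroup.lift a g1 z)
    exact ⟨g2 * g1, by rw [_root_.map_mul, Perm.mul_apply, hg1, hg2, _root_.map_mul, Perm.mul_apply]⟩

theorem range_slide {i j : Fin 2} (hij : i ≠ j) {a : Fin 2 → Perm X} {psi : Perm X}
    (hψ : ∀ x, ∃ n : ℤ, psi x = (a i ^ n) x) (x : X) :
    Set.range (fun g : FreeGroup (Fin 2) => (FreeGroup.lift a g) x) =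
      Set.range (fun g : FreeGroup (Fin 2) => (FreeGroup.lift (slide a j psi) g) x) := by
  have hψi : ∀ x, ∃ n : ℤ, psi⁻¹ x = (a i ^ n) x := by
    intro x
    obtain ⟨n, hn⟩ := hψ (psi⁻¹ x)
    refine ⟨-n, ?_⟩
    rw [← Perm.mul_apply, mul_inv_cancel, Perm.one_apply] at hn
    conv_rhs => rw [hn]
    rw [← Perm.mul_apply, ← zpow_add]
    simp
  have hbi : slide a j psi i = a i := by simp [slide, Function.update_of_ne hij]
  have hbj : slide a j psi j = a j * psi := by simp [slide]
  have hcase : ∀ k : Fin 2, k = i ∨ k = j := by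
    intro k
    by_cases h : k = i
    · exact Or.inl h
    · exact Or.inr (fin2_ne hij h)
  apply Subset.antisymm
  · rintro _ ⟨g, rfl⟩
    obtain ⟨g', hg'⟩ := range_le (a := slide a j psi) (b := a) (by
      intro k y
      rcases hcase k with rfl | rfl
      · exact ⟨⟨of k, by rw [lift_apply_of, hbi]⟩, ⟨(of k)⁻¹, by rw [_root_.map_inv, lift_apply_of, hbi]⟩⟩
      · constructor
        · obtain ⟨n, hn⟩ := hψi y
          refine ⟨of k * (of i) ^ n, ?_⟩
          rw [_root_.map_mul, _root_.map_zpow, lift_apply_of, lift_apply_of, hbi, hbj,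
            Perm.mul_apply, ← hn, Perm.mul_apply, ← Perm.mul_apply psi, mul_inv_cancel,
            Perm.one_apply]
        · obtain ⟨n, hn⟩ := hψ ((slide a k psi k)⁻¹ y)
          refine ⟨(of i) ^ n * (of k)⁻¹, ?_⟩
          rw [_root_.map_mul, _root_.map_zpow, _root_.map_inv, lift_apply_of, lift_apply_of, hbi,
            Perm.mul_apply, ← hn, hbj, mul_inv_rev, Perm.mul_apply, ← Perm.mul_apply psi,
            mul_inv_cancel, Perm.one_apply]) g x
    exact ⟨g', hg'.symm⟩
  · rintro _ ⟨g, rfl⟩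
    obtain ⟨g', hg'⟩ := range_le (a := a) (b := slide a j psi) (by
      intro k y
      rcases hcase k with rfl | rfl
      · exact ⟨⟨of k, by rw [lift_apply_of, hbi]⟩, ⟨(of k)⁻¹, by rw [_root_.map_inv, lift_apply_of, hbi]⟩⟩
      · constructor
        · obtain ⟨n, hn⟩ := hψ y
          refine ⟨of k * (of i) ^ n, ?_⟩
          rw [_root_.map_mul, _root_.map_zpow, lift_apply_of, lift_apply_of, hbj,
            Perm.mul_apply, hn, Perm.mul_apply]
        · obtain ⟨n, hn⟩ := hψi ((a k)⁻¹ y)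
          refine ⟨(of i) ^ n * (of k)⁻¹, ?_⟩
          rw [_root_.map_mul, _root_.map_zpow, _root_.map_inv, lift_apply_of, lift_apply_of,
            Perm.mul_apply, ← hn, hbj, mul_inv_rev, Perm.mul_apply]) g x
    exact ⟨g', hg'.symm⟩

end orbits

section main
variable {X : Type*} [MeasurableSpace X] [StandardBorelSpace X] {μ : Measure X}
  [IsProbabilityMeasure μ]

theorem full_group_preserves {S psi : Perm X} {A : Set X} (hSm : S ∈ MP μ)
    (hψ : ∀ x, ∃ n : ℤ, psi x = (S ^ n) x) (hS : S ⁻¹' A =ᵐ[μ] A) : psi ⁻¹' A =ᵐ[μ] A := by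
  have h1 : ∀ n : ℕ, ⇑(S ^ n) ⁻¹' A =ᵐ[μ] A := by
    intro n
    induction n with
    | zero => rw [pow_zero]; rfl
    | succ n ih =>
      have h2 : ⇑(S ^ (n+1)) ⁻¹' A = S ⁻¹' (⇑(S ^ n) ⁻¹' A) := by
        ext x; simp [pow_succ, Perm.mul_apply]
      rw [h2]
      exact (preimage_ae hSm ih).trans hS
  have h2 : ∀ n : ℤ, ⇑(S ^ n) ⁻¹' A =ᵐ[μ] A := by
    intro n
    obtain ⟨m, rfl | rfl⟩ := Int.eq_nat_or_neg n
    · rw [zpow_natCast]; exact h1 m
    · have h3 := preimage_ae ((MP μ).zpow_mem hSm (-(m:ℤ))) (h1 m)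
      have h4 : ⇑(S ^ (-(m:ℤ))) ⁻¹' (⇑(S ^ m) ⁻¹' A) = A := by
        ext x
        simp only [mem_preimage]
        rw [← zpow_natCast, ← Perm.mul_apply, ← zpow_add]
        simp
      rw [h4] at h3
      exact h3.symm
  have h3 : ∀ᵐ x ∂μ, ∀ n : ℤ, ((S ^ n) x ∈ A ↔ x ∈ A) := by
    rw [ae_all_iff]
    intro n
    filter_upwards [h2 n] with x hx
    exact hx.to_iff
  filter_upwards [h3] with x hx
  obtain ⟨n, hn⟩ := hψ x
  apply propext
  change psi x ∈ A ↔ x ∈ A
  rw [hn]
  exact hx n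

theorem final {a : Fin 2 → Perm X} (ha : ∀ i, a i ∈ MP μ)
    (hfree : ∀ g : FreeGroup (Fin 2), g ≠ 1 → μ {x | (FreeGroup.lift a g) x = x} = 0)
    (herg : ∀ s : Set X, MeasurableSet s → (∀ i, ⇑(a i) ⁻¹' s =ᵐ[μ] s) → μ s = 0 ∨ μ sᶜ = 0) :
    ∃ b : Fin 2 → Perm X, (∀ i, b i ∈ MP μ) ∧
      (∀ g : FreeGroup (Fin 2), g ≠ 1 → μ {x | (FreeGroup.lift b g) x = x} = 0) ∧
      (∀ x, Set.range (fun g : FreeGroup (Fin 2) => (FreeGroup.lift a g) x) =
        Set.range (fun g : FreeGroup (Fin 2) => (FreeGroup.lift b g) x)) ∧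
      ∀ g : FreeGroup (Fin 2), g ≠ 1 → EA μ (FreeGroup.lift b g) := by
  have h01 : (0 : Fin 2) ≠ 1 := by decide
  have h10 : (1 : Fin 2) ≠ 0 := by decide
  -- step 1
  obtain ⟨ψ1, hψ1, hf1, hp1⟩ := prop_P (μ := μ) h01 ha hfree
  set b1 := slide a 1 ψ1 with hb1
  have hb1m : ∀ i, b1 i ∈ MP μ := slide_mem_MP ha hψ1 1
  have hb1free := free_slide (μ := μ) h01 hfree hf1
  rw [← hb1] at hb1free
  have hT1 : EA μ (b1 1) := by
    intro A hA hinv
    have hw : wd b1 [(1, true)] = b1 1 := by rw [wd_cons, wd_nil]; simp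
    have h1 := hp1 [(1, true)] IsCyclicallyReduced.singleton rfl A hA (by rw [hw]; exact hinv)
    apply herg A hA
    intro i
    rcases (show i = 0 ∨ i = 1 by omega) with rfl | rfl
    · exact h1
    · have h2 := full_group_preserves (ha 0) hf1 h1
      have h3 : b1 1 ⁻¹' A = ψ1 ⁻¹' (a 1 ⁻¹' A) := by
        ext x; simp [hb1, slide, Perm.mul_apply]
      rw [h3] at hinv
      have h4 := preimage_ae ((MP μ).inv_mem hψ1) (hinv.trans h2.symm)
      have h5 : ∀ B : Set X, ⇑ψ1⁻¹ ⁻¹' (ψ1 ⁻¹' B) = B := by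
        intro B; ext x; simp
      rw [h5, h5] at h4
      exact h4
  -- step 2
  obtain ⟨ψ2, hψ2, hf2, hp2⟩ := prop_P (μ := μ) h10 hb1m hb1free
  set b2 := slide b1 0 ψ2 with hb2
  have hb2m : ∀ i, b2 i ∈ MP μ := slide_mem_MP hb1m hψ2 0
  have hb2free := free_slide (μ := μ) h10 hb1free hf2
  rw [← hb2] at hb2free
  have hS1 : ∀ k : ℕ, k ≠ 0 → EA μ ((b2 0) ^ k) := by
    intro k hk A hA hinv
    have hw : wd b2 (List.replicate k (0, true)) = (b2 0) ^ k := by
      clear hinv hk
      induction k with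
      | zero => rw [List.replicate_zero, wd_nil, pow_zero]
      | succ k ih => rw [List.replicate_succ, wd_cons, ih, pow_succ']; simp
    have hcyc : IsCyclicallyReduced (List.replicate k ((0 : Fin 2), true)) := by
      have := (IsCyclicallyReduced.singleton (x := ((0 : Fin 2), true))).flatten_replicate k
      simpa [List.flatten_replicate_singleton] using this
    have hlast : (List.replicate k ((0 : Fin 2), true)).getLast? = some (0, true) := by
      rw [List.getLast?_replicate]; simp [hk]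
    have h1 := hp2 _ hcyc hlast A hA (by rw [hw]; exact hinv)
    exact hT1 A hA h1
  have hS1' : EA μ (b2 0) := by simpa using hS1 1 (by omega)
  -- step 3
  obtain ⟨ψ3, hψ3, hf3, hp3⟩ := prop_P (μ := μ) h01 hb2m hb2free
  set b3 := slide b2 1 ψ3 with hb3
  have hb3m : ∀ i, b3 i ∈ MP μ := slide_mem_MP hb2m hψ3 1
  have hb3free := free_slide (μ := μ) h01 hb2free hf3
  rw [← hb3] at hb3free
  have hb30 : b3 0 = b2 0 := by simp [hb3, slide]
  refine ⟨b3, hb3m, hb3free, ?_, ?_⟩
  · intro x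
    rw [range_slide h01 hf1 x, range_slide h10 hf2 x, range_slide h01 hf3 x]
  · intro g hg
    obtain ⟨h, v, hgv, hv⟩ := good_conj h01 g hg
    have hEv : EA μ (FreeGroup.lift b3 v) := by
      rcases hv with ⟨k, hk, rfl⟩ | ⟨W, hW1, hW2, rfl⟩
      · rw [_root_.map_pow, lift_apply_of, hb30]
        exact hS1 k hk
      · intro A hA hinv
        exact hS1' A hA (hp3 W hW1 hW2 A hA hinv)
    have hvm : FreeGroup.lift b3 v ∈ MP μ := lift_mem_MP hb3m v
    have hhm : FreeGroup.lift b3 h ∈ MP μ := lift_mem_MP hb3m h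
    rcases hgv with rfl | rfl
    · rw [_root_.map_mul, _root_.map_mul, _root_.map_inv]
      exact EA_conj hhm hEv
    · rw [_root_.map_mul, _root_.map_mul, _root_.map_inv, _root_.map_inv]
      exact EA_conj hhm (EA_inv hvm hEv)

end main

end Pool.Agent.H31.FA
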